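import Mathlib

/-!
# Matrix representations from translation invariant finite-dimensional function spaces
-/

open Topology Set Filter

universe u

namespace Pool.Agent.MP820cde

variable {G : Type u} [Group G] [TopologicalSpace G] [IsTopologicalGroup G]

/-- Left translation of continuous functions. -/
def trans (g : G) : C(G, ℝ) →ₗ[ℝ] C(G, ℝ) where
  toFun u := ⟨fun x => u (g⁻¹ * x), by fun_prop⟩
  map_add' u v := by ext x; rfl
  map_smul' c u := by ext x; rfl

@[simp] lemma trans_apply (g : G) (u : C(G, ℝ)) (x : G) : trans g u x = u (g⁻¹ * x) := rfl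

lemma trans_one (u : C(G, ℝ)) : trans (1 : G) u = u := by ext x; simp

lemma trans_mul (g h : G) (u : C(G, ℝ)) : trans (g * h) u = trans g (trans h u) := by
  ext x
  simp [mul_assoc]

lemma continuous_trans (u : C(G, ℝ)) : Continuous fun g : G => trans g u := by
  have h : Continuous fun p : G × G => u (p.1⁻¹ * p.2) := by fun_prop
  exact (ContinuousMap.curry ⟨_, h⟩).continuous

/-- A finite-dimensional invariant subspace gives a matrix representation. -/
theorem exists_rep_of_invariant [CompactSpace G] (W : Submodule ℝ C(G, ℝ)) [FiniteDimensional ℝ W]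
    (hW : ∀ g : G, ∀ u ∈ W, trans g u ∈ W) {g₀ : G} {u₀ : C(G, ℝ)} (hu₀ : u₀ ∈ W)
    (hg₀ : trans g₀ u₀ ≠ u₀) :
    ∃ (n : ℕ) (φ : G →* (Matrix (Fin n) (Fin n) ℝ)ˣ), Continuous φ ∧ φ g₀ ≠ 1 := by
  let b := Module.finBasis ℝ W
  let ρ : G →* Module.End ℝ W :=
    { toFun := fun g => (trans g).restrict (hW g)
      map_one' := by
        ext u : 1
        apply Subtype.ext
        exact trans_one u.1
      map_mul' := fun g h => by
        ext u : 1
        apply Subtype.ext
        exact trans_mul g h u.1 }
  let M : G →* Matrix (Fin (Module.finrank ℝ W)) (Fin (Module.finrank ℝ W)) ℝ :=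
    ((LinearMap.toMatrixAlgEquiv b : Module.End ℝ W ≃ₐ[ℝ] _) : Module.End ℝ W →* _).comp ρ
  have hM : Continuous M := by
    apply continuous_matrix
    intro i j
    have h1 : ∀ g, M g i j = b.coord i (ρ g (b j)) := by
      intro g
      show LinearMap.toMatrixAlgEquiv b (ρ g) i j = _
      rw [LinearMap.toMatrixAlgEquiv_apply]
      rfl
    simp_rw [h1]
    have h2 : Continuous (b.coord i) := LinearMap.continuous_of_finiteDimensional _
    have h3 : Continuous fun g => ρ g (b j) := by
      apply Continuous.subtype_mk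
      exact continuous_trans (b j).1
    exact h2.comp h3
  refine ⟨_, M.toHomUnits, ?_, ?_⟩
  · rw [Units.continuous_iff]
    refine ⟨hM, ?_⟩
    have h1 : ∀ g, ((M.toHomUnits g)⁻¹).val = M g⁻¹ := by
      intro g
      rw [← map_inv]
      rfl
    simp_rw [h1]
    exact hM.comp continuous_inv
  · intro h
    apply hg₀
    have h1 : M g₀ = 1 := congrArg Units.val h
    have h2 : ρ g₀ = 1 := by
      have : LinearMap.toMatrixAlgEquiv b (ρ g₀) = 1 := h1
      rw [← map_one (LinearMap.toMatrixAlgEquiv b)] at this
      exact (LinearMap.toMatrixAlgEquiv b).injective this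
    have h3 : ρ g₀ ⟨u₀, hu₀⟩ = ⟨u₀, hu₀⟩ := by rw [h2]; rfl
    exact congrArg Subtype.val h3

end Pool.Agent.MP820cde
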