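import Mathlib
import Pool.Agent.MP_820cde_gt.Rep

/-!
# Peter-Weyl: finite-dimensional real representations separate points of a compact group
-/

open Topology Set Filter MeasureTheory
open scoped InnerProductSpace

universe u

namespace Pool.Agent.MP820cde

section

set_option linter.unusedSectionVars false

variable {G : Type u} [Group G] [TopologicalSpace G] [IsTopologicalGroup G] [CompactSpace G]
  [T2Space G] [MeasurableSpace G] [BorelSpace G]
  (μ : Measure G) [IsProbabilityMeasure μ] [μ.IsMulLeftInvariant] [μ.IsOpenPosMeasure]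
  [μ.WeaklyRegular]

/-- Embedding of continuous functions in `L²`. -/
noncomputable abbrev toL2 : C(G, ℝ) →L[ℝ] Lp ℝ 2 μ := ContinuousMap.toLp 2 μ ℝ

lemma inner_toL2 (f g : C(G, ℝ)) : ⟪toL2 μ f, toL2 μ g⟫_ℝ = ∫ x, g x * f x ∂μ := by
  rw [ContinuousMap.inner_toLp]
  simp

lemma norm_trans_le (x : G) (u : C(G, ℝ)) : ‖trans x u‖ ≤ ‖u‖ := by
  rw [ContinuousMap.norm_le _ (norm_nonneg _)]
  intro y
  exact u.norm_coe_le_norm _

lemma continuous_kappa (u : C(G, ℝ)) : Continuous fun x : G => toL2 μ (trans x u) :=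
  (toL2 μ).continuous.comp (continuous_trans u)

/-- The convolution operator with values in continuous functions. -/
noncomputable def convC (φ₀ : C(G, ℝ)) : Lp ℝ 2 μ →L[ℝ] C(G, ℝ) :=
  LinearMap.mkContinuous
    { toFun := fun f => ⟨fun x => ⟪toL2 μ (trans x φ₀), f⟫_ℝ,
        (continuous_kappa μ φ₀).inner continuous_const⟩
      map_add' := fun f g => by
        ext x
        simp [inner_add_right]
      map_smul' := fun c f => by
        ext x
        simp [inner_smul_right] }
    (‖toL2 μ‖ * ‖φ₀‖) (by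
      intro f
      rw [ContinuousMap.norm_le _ (by positivity)]
      intro x
      refine (norm_inner_le_norm (𝕜 := ℝ) (toL2 μ (trans x φ₀)) f).trans ?_
      gcongr
      refine ((toL2 μ).le_opNorm _).trans ?_
      gcongr
      exact norm_trans_le x φ₀)

lemma convC_apply (φ₀ : C(G, ℝ)) (f : Lp ℝ 2 μ) (x : G) :
    convC μ φ₀ f x = ⟪toL2 μ (trans x φ₀), f⟫_ℝ := rfl

lemma convC_toL2 (φ₀ u : C(G, ℝ)) (x : G) :
    convC μ φ₀ (toL2 μ u) x = ∫ y, u y * φ₀ (x⁻¹ * y) ∂μ := by
  rw [convC_apply, inner_toL2]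
  rfl

/-- The convolution operator on `L²`. -/
noncomputable def conv (φ₀ : C(G, ℝ)) : Lp ℝ 2 μ →L[ℝ] Lp ℝ 2 μ := (toL2 μ).comp (convC μ φ₀)

lemma conv_apply (φ₀ : C(G, ℝ)) (f : Lp ℝ 2 μ) : conv μ φ₀ f = toL2 μ (convC μ φ₀ f) := rfl

lemma isCompactOperator_convC (φ₀ : C(G, ℝ)) : IsCompactOperator (convC μ φ₀) := by
  refine (isCompactOperator_iff_isCompact_closure_image_closedBall (𝕜₁ := ℝ)
    (convC μ φ₀).toLinearMap one_pos).2 ?_
  change IsCompact (closure (convC μ φ₀ '' Metric.closedBall 0 1))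
  let e := ContinuousMap.isometryEquivBoundedOfCompact G ℝ
  have hmain : IsCompact (closure (e '' (convC μ φ₀ '' Metric.closedBall 0 1))) := by
    apply BoundedContinuousFunction.arzela_ascoli
      (Metric.closedBall (0 : ℝ) (‖toL2 μ‖ * ‖φ₀‖)) (isCompact_closedBall _ _)
    · rintro _ x ⟨_, ⟨f, hf, rfl⟩, rfl⟩
      rw [mem_closedBall_zero_iff] at hf ⊢
      show ‖convC μ φ₀ f x‖ ≤ _
      refine (norm_inner_le_norm (𝕜 := ℝ) (toL2 μ (trans x φ₀)) f).trans ?_
      calc ‖toL2 μ (trans x φ₀)‖ * ‖f‖ ≤ (‖toL2 μ‖ * ‖φ₀‖) * 1 := by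
            gcongr
            refine ((toL2 μ).le_opNorm _).trans ?_
            gcongr
            exact norm_trans_le x φ₀
        _ = _ := mul_one _
    · intro x₀
      refine Metric.equicontinuousAt_iff_right.2 ?_
      intro ε hε
      have hc := (continuous_kappa μ φ₀).continuousAt (x := x₀)
      rw [Metric.continuousAt_iff'] at hc
      filter_upwards [hc ε hε] with x hx
      rintro ⟨_, ⟨_, ⟨f, hf, rfl⟩, rfl⟩⟩
      rw [mem_closedBall_zero_iff] at hf
      show dist (convC μ φ₀ f x₀) (convC μ φ₀ f x) < ε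
      rw [convC_apply, convC_apply, Real.dist_eq, ← inner_sub_left]
      calc |⟪toL2 μ (trans x₀ φ₀) - toL2 μ (trans x φ₀), f⟫_ℝ|
          ≤ ‖toL2 μ (trans x₀ φ₀) - toL2 μ (trans x φ₀)‖ * ‖f‖ := abs_real_inner_le_norm _ _
        _ ≤ ‖toL2 μ (trans x₀ φ₀) - toL2 μ (trans x φ₀)‖ * 1 := by gcongr
        _ < ε := by rw [mul_one, ← dist_eq_norm, dist_comm]; exact hx
  have h2 : closure (e '' (convC μ φ₀ '' Metric.closedBall 0 1)) =
      e '' closure (convC μ φ₀ '' Metric.closedBall 0 1) :=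
    (e.toHomeomorph.image_closure _).symm
  rw [h2] at hmain
  exact (e.toHomeomorph.isCompact_image).1 hmain

lemma isCompactOperator_conv (φ₀ : C(G, ℝ)) : IsCompactOperator (conv μ φ₀) :=
  (isCompactOperator_convC μ φ₀).clm_comp (toL2 μ)

lemma conv_isSymmetric {φ₀ : C(G, ℝ)} (hφ₀ : ∀ x, φ₀ x⁻¹ = φ₀ x) :
    (conv μ φ₀).IsSymmetric := by
  have hd : DenseRange (toL2 μ) := ContinuousMap.toLp_denseRange ℝ μ ℝ (by norm_num)
  intro f g
  refine hd.induction_on₂ (p := fun f g => ⟪conv μ φ₀ f, g⟫_ℝ = ⟪f, conv μ φ₀ g⟫_ℝ) ?_ ?_ f g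
  · exact isClosed_eq (by fun_prop) (by fun_prop)
  · intro u v
    rw [conv_apply, conv_apply, inner_toL2, inner_toL2]
    simp_rw [convC_toL2]
    have h1 : ∀ x, v x * ∫ y, u y * φ₀ (x⁻¹ * y) ∂μ = ∫ y, v x * (u y * φ₀ (x⁻¹ * y)) ∂μ :=
      fun x => (integral_const_mul _ _).symm
    have h2 : ∀ x, (∫ y, v y * φ₀ (x⁻¹ * y) ∂μ) * u x = ∫ y, (v y * φ₀ (x⁻¹ * y)) * u x ∂μ :=
      fun x => (integral_mul_const _ _).symm
    simp_rw [h1, h2]
    rw [integral_integral_swap_of_hasCompactSupport]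
    · congr 1 with x
      congr 1 with y
      have h3 : φ₀ (y⁻¹ * x) = φ₀ (x⁻¹ * y) := by
        rw [← hφ₀ (y⁻¹ * x)]
        congr 1
        group
      rw [h3]
      ring
    · simp only [Function.uncurry_def]
      fun_prop
    · exact HasCompactSupport.of_compactSpace _

/-- Translation invariance of the convolution operator. -/
lemma convC_trans (φ₀ u : C(G, ℝ)) (g : G) :
    convC μ φ₀ (toL2 μ (trans g u)) = trans g (convC μ φ₀ (toL2 μ u)) := by
  ext x
  rw [trans_apply, convC_toL2, convC_toL2]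
  rw [← integral_mul_left_eq_self (μ := μ) _ g]
  congr 1 with y
  simp [mul_assoc]

/-- Key step: if `g` acts trivially on all eigenspaces, the convolution is `g`-invariant. -/
lemma trans_convC_eq {φ₀ : C(G, ℝ)} (hφ₀ : ∀ x, φ₀ x⁻¹ = φ₀ x) (g : G)
    (hg : ∀ c : ℝ, c ≠ 0 → ∀ u : C(G, ℝ), convC μ φ₀ (toL2 μ u) = c • u → trans g u = u)
    (f : Lp ℝ 2 μ) : trans g (convC μ φ₀ f) = convC μ φ₀ f := by
  have htrans : Continuous (trans g : C(G, ℝ) → C(G, ℝ)) := by
    have : (trans g : C(G, ℝ) → C(G, ℝ)) = fun u => u.comp ⟨fun x => g⁻¹ * x, by fun_prop⟩ := by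
      funext u
      ext x
      rfl
    rw [this]
    fun_prop
  let E : Submodule ℝ (Lp ℝ 2 μ) :=
    { carrier := {f | trans g (convC μ φ₀ f) = convC μ φ₀ f}
      add_mem' := by
        intro f f' hf hf'
        simp only [mem_ofPred_eq] at *
        rw [map_add, map_add, hf, hf']
      zero_mem' := by simp
      smul_mem' := by
        intro c f hf
        simp only [mem_ofPred_eq] at *
        rw [map_smul, map_smul, hf] }
  have hEc : IsClosed (E : Set (Lp ℝ 2 μ)) :=
    isClosed_eq (htrans.comp (convC μ φ₀).continuous) (convC μ φ₀).continuous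
  have hle : (⨆ c, Module.End.eigenspace (conv μ φ₀ : Module.End ℝ (Lp ℝ 2 μ)) c) ≤ E := by
    refine iSup_le fun c f hf => ?_
    rw [Module.End.mem_eigenspace_iff] at hf
    have hf' : toL2 μ (convC μ φ₀ f) = c • f := hf
    show trans g (convC μ φ₀ f) = convC μ φ₀ f
    by_cases hc : c = 0
    · subst hc
      rw [zero_smul] at hf'
      have h0 : convC μ φ₀ f = 0 := by
        apply ContinuousMap.toLp_injective μ (p := 2) (𝕜 := ℝ)
        rw [hf', map_zero]
      rw [h0, map_zero]
    · apply hg c hc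
      rw [hf', map_smul]
  have hbot := (conv μ φ₀).orthogonalComplement_iSup_eigenspaces_eq_bot
    (isCompactOperator_conv μ φ₀) (conv_isSymmetric μ hφ₀)
  have htop : (⨆ c, Module.End.eigenspace (conv μ φ₀ : Module.End ℝ (Lp ℝ 2 μ)) c).topologicalClosure
      = ⊤ := (Submodule.topologicalClosure_eq_top_iff).2 hbot
  have hfE : f ∈ E := by
    have h1 : f ∈ (⨆ c, Module.End.eigenspace (conv μ φ₀ : Module.End ℝ (Lp ℝ 2 μ)) c).topologicalClosure := by
      rw [htop]; trivial
    exact (Submodule.topologicalClosure_minimal _ hle hEc) h1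
  exact hfE

end

/-- Symmetric bump functions. -/
lemma exists_bump {G : Type u} [Group G] [TopologicalSpace G] [IsTopologicalGroup G]
    [CompactSpace G] [T2Space G] {g : G} (hg : g ≠ 1) :
    ∃ φ₀ : C(G, ℝ), (∀ x, φ₀ x⁻¹ = φ₀ x) ∧ φ₀ 1 = 1 ∧ ∀ y, φ₀ y * φ₀ (g * y) = 0 := by
  have h1 : ({g}ᶜ : Set G) ∈ 𝓝 (1 : G) := isOpen_compl_singleton.mem_nhds (by simpa using hg.symm)
  obtain ⟨V, hV, hVs⟩ := exists_nhds_split_inv h1
  obtain ⟨W, hWV, hWo, hW1⟩ := mem_nhds_iff.1 hV
  obtain ⟨u, hu0, hu1, -⟩ := exists_continuous_zero_one_of_isClosed (isClosed_compl_iff.2 hWo)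
    (isClosed_singleton (x := (1 : G))) (by simpa using hW1)
  refine ⟨⟨fun x => u x * u x⁻¹, by fun_prop⟩, ?_, ?_, ?_⟩
  · intro x
    simp [mul_comm]
  · have := hu1 (mem_singleton (1 : G))
    simp [this]
  · intro y
    simp only [ContinuousMap.coe_mk]
    by_cases hy : y ∈ W
    · by_cases hgy : g * y ∈ W
      · exfalso
        have := hVs (g * y) (hWV hgy) y (hWV hy)
        simp at this
      · have := hu0 (show g * y ∈ Wᶜ from hgy)
        simp only [Pi.zero_apply] at this
        rw [this]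
        ring
    · have := hu0 (show y ∈ Wᶜ from hy)
      simp only [Pi.zero_apply] at this
      rw [this]
      ring

/-- Finite-dimensional representations separate points. -/
theorem exists_rep {G : Type u} [Group G] [TopologicalSpace G] [IsTopologicalGroup G]
    [CompactSpace G] [T2Space G] {g : G} (hg : g ≠ 1) :
    ∃ (n : ℕ) (φ : G →* (Matrix (Fin n) (Fin n) ℝ)ˣ), Continuous φ ∧ φ g ≠ 1 := by
  let : MeasurableSpace G := borel G
  have : BorelSpace G := ⟨rfl⟩
  let μ : Measure G := Measure.haarMeasure ⊤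
  have hμ1 : μ univ = 1 := by
    have := Measure.haarMeasure_self (K₀ := (⊤ : TopologicalSpace.PositiveCompacts G))
    simpa using this
  have : IsProbabilityMeasure μ := ⟨hμ1⟩
  obtain ⟨φ₀, hsym, h1, hprod⟩ := exists_bump hg
  -- some eigenfunction is moved by `g`
  have key : ∃ c : ℝ, c ≠ 0 ∧ ∃ u : C(G, ℝ), convC μ φ₀ (toL2 μ u) = c • u ∧ trans g u ≠ u := by
    by_contra hcon
    push Not at hcon
    have h2 := trans_convC_eq μ hsym g hcon (toL2 μ φ₀)
    have h3 : trans g (convC μ φ₀ (toL2 μ φ₀)) 1 = convC μ φ₀ (toL2 μ φ₀) 1 := by rw [h2]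
    rw [trans_apply, convC_toL2, convC_toL2] at h3
    have h4 : ∫ y, φ₀ y * φ₀ ((g⁻¹ * 1)⁻¹ * y) ∂μ = 0 := by
      simp only [mul_one, inv_inv, hprod, integral_zero]
    rw [h4] at h3
    have h5 : 0 < ∫ y, φ₀ y * φ₀ (1⁻¹ * y) ∂μ := by
      simp only [inv_one, one_mul]
      apply Continuous.integral_pos_of_hasCompactSupport_nonneg_nonzero (x := 1)
      · fun_prop
      · exact HasCompactSupport.of_compactSpace _
      · intro y
        exact mul_self_nonneg _
      · rw [h1]
        norm_num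
    rw [← h3] at h5
    exact lt_irrefl _ h5
  obtain ⟨c, hc, u₀, hu₀, hgu₀⟩ := key
  let W : Submodule ℝ C(G, ℝ) :=
    { carrier := {u | convC μ φ₀ (toL2 μ u) = c • u}
      add_mem' := by
        intro f f' hf hf'
        simp only [mem_ofPred_eq] at *
        rw [map_add, map_add, hf, hf', smul_add]
      zero_mem' := by simp
      smul_mem' := by
        intro a f hf
        simp only [mem_ofPred_eq] at *
        rw [map_smul, map_smul, hf, smul_comm] }
  have hfd : FiniteDimensional ℝ (Module.End.eigenspace (conv μ φ₀).toLinearMap c) :=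
    (conv μ φ₀).finite_dimensional_eigenspace (isCompactOperator_conv μ φ₀) c hc
  have hWfd : FiniteDimensional ℝ W := by
    let T : W →ₗ[ℝ] Module.End.eigenspace (conv μ φ₀).toLinearMap c :=
      { toFun := fun u => ⟨toL2 μ u.1, by
          rw [Module.End.mem_eigenspace_iff]
          show toL2 μ (convC μ φ₀ (toL2 μ u.1)) = _
          rw [u.2, map_smul]⟩
        map_add' := fun u v => by
          apply Subtype.ext
          exact map_add _ _ _
        map_smul' := fun a u => by
          apply Subtype.ext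
          exact map_smul _ _ _ }
    apply FiniteDimensional.of_injective T
    intro u v huv
    apply Subtype.ext
    exact ContinuousMap.toLp_injective μ (p := 2) (𝕜 := ℝ) (congrArg Subtype.val huv)
  exact exists_rep_of_invariant W (fun h u hu => by
    show convC μ φ₀ (toL2 μ (trans h u)) = c • trans h u
    have hu' : convC μ φ₀ (toL2 μ u) = c • u := hu
    rw [convC_trans, hu', map_smul]) hu₀ hgu₀

end Pool.Agent.MP820cde
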