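import Mathlib

/-!
# Uncountable independent families of homomorphisms

Let `φ i : G → L` be continuous homomorphisms on a compact group such that no countable
subfamily separates points of the whole family and such that images of decreasing sequences of
closed subgroups stabilise.  Then over some countable subfamily there is an uncountable
independent subfamily.
-/

open Topology Set Filter

universe u v w

namespace Pool.Agent.MP820cde

variable {G : Type u} {L : Type v} {ι : Type w} [Group G] [Group L]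

/-- Common kernel of a set of homomorphisms. -/
def ker (φ : ι → G →* L) (C : Set ι) : Subgroup G := ⨅ i ∈ C, (φ i).ker

lemma mem_ker {φ : ι → G →* L} {C : Set ι} {g : G} : g ∈ ker φ C ↔ ∀ i ∈ C, φ i g = 1 := by
  simp [ker, Subgroup.mem_iInf, MonoidHom.mem_ker]

lemma ker_anti {φ : ι → G →* L} {C D : Set ι} (h : C ⊆ D) : ker φ D ≤ ker φ C := by
  intro g hg
  rw [mem_ker] at *
  exact fun i hi => hg i (h hi)

lemma isClosed_ker [TopologicalSpace G] [TopologicalSpace L] [T1Space L] {φ : ι → G →* L}
    (hφ : ∀ i, Continuous (φ i)) (C : Set ι) : IsClosed (ker φ C : Set G) := by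
  have : (ker φ C : Set G) = ⋂ i ∈ C, (φ i) ⁻¹' {1} := by
    ext g
    simp [mem_ker]
  rw [this]
  exact isClosed_biInter fun i _ => isClosed_singleton.preimage (hφ i)

/-- Finite independence of a set `S` of homomorphisms over the common kernel of `C`. -/
def FinIndep (φ : ι → G →* L) (C S : Set ι) : Prop :=
  (∀ s ∈ S, ∃ g ∈ ker φ C, φ s g ≠ 1) ∧
  ∀ (F : Finset ι), (F : Set ι) ⊆ S → ∀ a : ι → G, (∀ s, a s ∈ ker φ C) →
    ∃ g ∈ ker φ C, ∀ s ∈ F, φ s g = φ s (a s)

lemma exists_maximal_finIndep (φ : ι → G →* L) (C : Set ι) :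
    ∃ S, Maximal (FinIndep φ C) S := by
  have := zorn_subset {S | FinIndep φ C S} (by
    intro c hc hchain
    by_cases hne : c.Nonempty
    swap
    · rw [not_nonempty_iff_eq_empty] at hne
      subst hne
      refine ⟨∅, ⟨by simp, ?_⟩, by simp⟩
      intro F hF a ha
      refine ⟨1, one_mem _, fun s hs => ?_⟩
      exact absurd (hF hs) (by simp)
    refine ⟨⋃₀ c, ⟨?_, ?_⟩, fun s hs => subset_sUnion_of_mem hs⟩
    · rintro s ⟨S, hS, hs⟩
      exact (hc hS).1 s hs
    · intro F hF a ha
      obtain ⟨S, hS, hFS⟩ := hchain.directedOn.exists_mem_subset_of_finset_subset_biUnion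
        (f := id) hne (s := F) (by rw [sUnion_eq_biUnion] at hF; exact hF)
      exact (hc hS).2 F hFS a ha)
  exact this

/-- The inductive step: a homomorphism which is non-trivial on a stable kernel can be added. -/
lemma finIndep_insert {φ : ι → G →* L} {C C' S : Set ι} (hS : FinIndep φ C S)
    (hCC' : C ⊆ C') (hSC' : S ⊆ C') {i : ι}
    (hi : (ker φ C).map (φ i) = (ker φ C').map (φ i)) {g : G} (hg : g ∈ ker φ C')
    (hgi : φ i g ≠ 1) : FinIndep φ C (insert i S) := by
  classical
  have hiS : i ∉ S := fun h => hgi (mem_ker.1 hg i (hSC' h))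
  refine ⟨?_, ?_⟩
  · rintro s (rfl | hs)
    · exact ⟨g, ker_anti hCC' hg, hgi⟩
    · exact hS.1 s hs
  · intro F hF a ha
    have hF' : ((F.erase i : Finset ι) : Set ι) ⊆ S := by
      intro s hs
      rw [Finset.mem_coe, Finset.mem_erase] at hs
      rcases hF hs.2 with h | h
      · exact absurd h hs.1
      · exact h
    obtain ⟨h, hh, hh'⟩ := hS.2 (F.erase i) hF' a ha
    have h1 : φ i (h⁻¹ * a i) ∈ (ker φ C').map (φ i) := by
      rw [← hi]
      exact ⟨h⁻¹ * a i, mul_mem (inv_mem hh) (ha i), rfl⟩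
    obtain ⟨k, hk, hk'⟩ := h1
    refine ⟨h * k, mul_mem hh (ker_anti hCC' hk), fun s hs => ?_⟩
    by_cases hsi : s = i
    · subst hsi
      rw [map_mul, hk', map_mul, map_inv, mul_inv_cancel_left]
    · have hs' : s ∈ F.erase i := Finset.mem_erase.2 ⟨hsi, hs⟩
      have : φ s k = 1 := mem_ker.1 hk s (hSC' (hF' hs'))
      rw [map_mul, this, mul_one]
      exact hh' s hs'

/-- Existence of an uncountable finitely independent family. -/
theorem exists_uncountable_finIndep [TopologicalSpace G] [TopologicalSpace L] [T1Space L]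
    (φ : ι → G →* L) (hφ : ∀ i, Continuous (φ i))
    (hdcc : ∀ i, ∀ N : ℕ → Subgroup G, Antitone N → (∀ k, IsClosed (N k : Set G)) →
      ∃ k₀, ∀ k ≥ k₀, (N k).map (φ i) = (N k₀).map (φ i))
    (hsep : ∀ C : Set ι, C.Countable → ∃ g ∈ ker φ C, ∃ i, φ i g ≠ 1) :
    ∃ C : Set ι, C.Countable ∧ ∃ S : Set ι, ¬ S.Countable ∧ FinIndep φ C S := by
  by_contra hcon
  push Not at hcon
  choose mi hmi using exists_maximal_finIndep φ
  have hcount : ∀ C : Set ι, C.Countable → (mi C).Countable := by
    intro C hC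
    by_contra h
    exact hcon C hC (mi C) h (hmi C).prop
  let C : ℕ → Set ι := fun n => Nat.rec ∅ (fun _ C => C ∪ mi C) n
  have hC0 : C 0 = ∅ := rfl
  have hCs : ∀ n, C (n + 1) = C n ∪ mi (C n) := fun n => rfl
  have hCc : ∀ n, (C n).Countable := by
    intro n
    induction n with
    | zero => rw [hC0]; exact countable_empty
    | succ n ih => rw [hCs]; exact ih.union (hcount _ ih)
  have hmono : Monotone C := monotone_nat_of_le_succ fun n => by
    rw [hCs]; exact subset_union_left
  obtain ⟨g, hg, i, hgi⟩ := hsep (⋃ n, C n) (countable_iUnion hCc)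
  obtain ⟨k₀, hk₀⟩ := hdcc i (fun n => ker φ (C n)) (fun m n hmn => ker_anti (hmono hmn))
    (fun k => isClosed_ker hφ _)
  have h1 : FinIndep φ (C k₀) (insert i (mi (C k₀))) := by
    apply finIndep_insert (C' := C (k₀ + 1)) (hmi (C k₀)).prop (hmono (Nat.le_succ _))
      (by rw [hCs]; exact subset_union_right) (hk₀ (k₀ + 1) (Nat.le_succ _)).symm
      (g := g) (ker_anti (subset_iUnion C (k₀ + 1)) hg) hgi
  have h2 : i ∈ mi (C k₀) := (hmi (C k₀)).le_of_ge h1 (subset_insert _ _) (mem_insert _ _)
  have h3 : i ∈ C (k₀ + 1) := by rw [hCs]; exact Or.inr h2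
  exact hgi (mem_ker.1 (ker_anti (subset_iUnion C (k₀ + 1)) hg) i h3)

/-- Compactness: finite independence implies independence. -/
theorem FinIndep.indep [TopologicalSpace G] [CompactSpace G] [TopologicalSpace L] [T1Space L]
    {φ : ι → G →* L} (hφ : ∀ i, Continuous (φ i)) {C S : Set ι} (hS : FinIndep φ C S)
    (a : ι → G) (ha : ∀ s, a s ∈ ker φ C) : ∃ g ∈ ker φ C, ∀ s ∈ S, φ s g = φ s (a s) := by
  classical
  let K : ι → Set G := fun s => if s ∈ S then {g | φ s g = φ s (a s)} else univ
  have hK : ∀ s, IsClosed (K s) := by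
    intro s
    by_cases hs : s ∈ S
    · simp only [K, if_pos hs]
      exact isClosed_singleton.preimage (hφ s)
    · simp only [K, if_neg hs]
      exact isClosed_univ
  have hc : IsCompact (ker φ C : Set G) := (isClosed_ker hφ C).isCompact
  have := hc.inter_iInter_nonempty K hK (by
    intro F
    obtain ⟨g, hg, hg'⟩ := hS.2 (F.filter (· ∈ S)) (by intro s hs; simpa using (Finset.mem_filter.1 hs).2) a ha
    refine ⟨g, hg, ?_⟩
    simp only [mem_iInter]
    intro s hs
    by_cases hsS : s ∈ S
    · simp only [K, if_pos hsS]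
      exact hg' s (Finset.mem_filter.2 ⟨hs, hsS⟩)
    · simp only [K, if_neg hsS]
      trivial)
  obtain ⟨g, hg, hg'⟩ := this
  refine ⟨g, hg, fun s hs => ?_⟩
  have := mem_iInter.1 hg' s
  simp only [K, if_pos hs] at this
  exact this

end Pool.Agent.MP820cde
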