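import Mathlib

/-!
# Disjoint refinement of countably many uncountable sets
-/

open Set Cardinal

universe u

namespace Pool.Agent.MP820cde

/-- A well-ordered uncountable type with countable initial segments and a map to a countable
nonempty type with uncountable fibres. -/
lemma exists_good_index (T : Type) [Countable T] [Nonempty T] :
    ∃ (W : Type) (_ : LinearOrder W) (_ : WellFoundedLT W),
      (∀ w : W, (Iio w).Countable) ∧ ∃ κ : W → T, ∀ t, ¬ (κ ⁻¹' {t}).Countable := by
  let W : Type := (ℵ₁ : Cardinal.{0}).ord.ToType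
  have hW : #W = ℵ₁ := by simp [W]
  have hcount : ∀ w : W, (Iio w).Countable := by
    intro w
    have h : #(Iio w) < #W := Cardinal.mk_Iio_lt w (by simp [W])
    rw [hW] at h
    exact Cardinal.le_aleph0_iff_set_countable.1 (Cardinal.lt_aleph_one_iff.1 h)
  refine ⟨W, inferInstance, inferInstance, hcount, ?_⟩
  have hWT : #(W × T) = #W := by
    rw [Cardinal.mk_prod, hW]
    simp only [Cardinal.lift_id]
    apply Cardinal.mul_eq_left (Cardinal.aleph0_le_aleph 1)
    · exact (Cardinal.mk_le_aleph0 (α := T)).trans (Cardinal.aleph0_le_aleph 1)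
    · exact Cardinal.mk_ne_zero T
  obtain ⟨e⟩ := Cardinal.eq.1 hWT
  refine ⟨fun w => (e.symm w).2, fun t ht => ?_⟩
  have hinj : Function.Injective (fun w : W => e (w, t)) := by
    intro a b hab
    have := e.injective hab
    exact (Prod.mk.inj this).1
  have : (univ : Set W).Countable := by
    have h1 : (fun w : W => e (w, t)) '' univ ⊆ (fun w => (e.symm w).2) ⁻¹' {t} := by
      rintro _ ⟨w, -, rfl⟩
      simp
    exact countable_of_injective_of_countable_image hinj.injOn (ht.mono h1)
  have h2 : #W ≤ ℵ₀ := by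
    rw [← Cardinal.mk_univ]
    exact Cardinal.le_aleph0_iff_set_countable.2 this
  rw [hW] at h2
  exact absurd h2 (not_le.2 Cardinal.aleph0_lt_aleph_one)

/-- Disjoint refinement: countably many uncountable sets contain pairwise disjoint
uncountable subsets. -/
lemma exists_refinement {ι : Type u} {T : Type} [Countable T] [Nonempty T] (S : T → Set ι) :
    ∃ Θ : ι → T, ∀ t, ¬ (S t).Countable → ¬ ({s | s ∈ S t ∧ Θ s = t}).Countable := by
  classical
  by_cases hT : ∃ t, ¬ (S t).Countable
  swap
  · push Not at hT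
    exact ⟨fun _ => Classical.arbitrary T, fun t ht => absurd (hT t) ht⟩
  let T' : Type := {t : T // ¬ (S t).Countable}
  have : Nonempty T' := by
    obtain ⟨t, ht⟩ := hT
    exact ⟨⟨t, ht⟩⟩
  obtain ⟨W, _, _, hW, κ, hκ⟩ := exists_good_index T'
  -- recursion
  have hex : ∀ (w : W) (f : ∀ v : W, v < w → ι), ∃ s, s ∈ S (κ w).1 ∧ ∀ v (hv : v < w), f v hv ≠ s := by
    intro w f
    have h1 : (⋃ v : Iio w, {f v.1 v.2}).Countable := by
      have := hW w
      have : Countable (Iio w) := this.to_subtype
      exact countable_iUnion fun _ => countable_singleton _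
    have h2 : ¬ (S (κ w).1 \ ⋃ v : Iio w, {f v.1 v.2}).Countable := by
      intro h
      apply (κ w).2
      exact (h.union h1).mono (by
        intro x hx
        by_cases hx' : x ∈ ⋃ v : Iio w, {f v.1 v.2}
        · exact Or.inr hx'
        · exact Or.inl ⟨hx, hx'⟩)
    have h3 : (S (κ w).1 \ ⋃ v : Iio w, {f v.1 v.2}).Nonempty := by
      rw [nonempty_iff_ne_empty]
      intro h
      rw [h] at h2
      exact h2 countable_empty
    obtain ⟨s, hs1, hs2⟩ := h3
    refine ⟨s, hs1, fun v hv h => hs2 ?_⟩
    exact mem_iUnion.2 ⟨⟨v, hv⟩, by simp [h]⟩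
  choose g hg1 hg2 using hex
  let s : W → ι := (wellFounded_lt (α := W)).fix g
  have hs : ∀ w, s w = g w (fun v _ => s v) := fun w => WellFounded.fix_eq _ _ _
  have hsmem : ∀ w, s w ∈ S (κ w).1 := fun w => by rw [hs w]; exact hg1 _ _
  have hsne : ∀ v w, v < w → s v ≠ s w := by
    intro v w hvw
    have := hg2 w (fun v _ => s v) v hvw
    rw [hs w]
    exact this
  have hsinj : Function.Injective s := by
    intro a b hab
    rcases lt_trichotomy a b with h | h | h
    · exact absurd hab (hsne _ _ h)
    · exact h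
    · exact absurd hab.symm (hsne _ _ h)
  refine ⟨fun x => if h : ∃ w, s w = x then (κ h.choose).1 else Classical.arbitrary T, ?_⟩
  intro t ht hc
  apply hκ ⟨t, ht⟩
  have : s '' (κ ⁻¹' {⟨t, ht⟩}) ⊆ {x | x ∈ S t ∧
      (if h : ∃ w, s w = x then (κ h.choose).1 else Classical.arbitrary T) = t} := by
    rintro _ ⟨w, hw, rfl⟩
    have hw' : κ w = ⟨t, ht⟩ := hw
    have hex : ∃ w', s w' = s w := ⟨w, rfl⟩
    have hch : hex.choose = w := hsinj hex.choose_spec
    refine ⟨?_, ?_⟩
    · have := hsmem w
      rwa [hw'] at this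
    · rw [dif_pos hex, hch, hw']
  exact countable_of_injective_of_countable_image hsinj.injOn (hc.mono this)

end Pool.Agent.MP820cde
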