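import Mathlib

/-!
# Continuous selections on the Cantor space

Zero-dimensional Michael selection for lower hemicontinuous closed-valued maps from the Cantor
space into a compact metrizable space, and its application to lifting through homomorphisms
of compact groups.
-/

open Topology Set Filter

namespace Pool.Agent.MP820cde

/-- The Cantor space. -/
abbrev Cantor : Type := ℕ → Bool

/-- Restriction to the first `n` coordinates. -/
def res (n : ℕ) (z : Cantor) : Fin n → Bool := fun i => z i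

/-- Extension of a finite sequence by `false`. -/
def ext (n : ℕ) (c : Fin n → Bool) : Cantor := fun i => if h : i < n then c ⟨i, h⟩ else false

@[simp] lemma res_ext (n : ℕ) (c : Fin n → Bool) : res n (ext n c) = c := by
  funext i
  simp [res, ext]

lemma continuous_res (n : ℕ) : Continuous (res n) := by
  unfold res
  fun_prop

/-- The neighbourhoods of a point of the Cantor space. -/
lemma exists_res_nhds {z : Cantor} {U : Set Cantor} (hU : U ∈ 𝓝 z) :
    ∃ n : ℕ, ∀ z' : Cantor, res n z' = res n z → z' ∈ U := by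
  rw [nhds_pi, Filter.mem_pi] at hU
  obtain ⟨I, hI, t, ht, htU⟩ := hU
  obtain ⟨n, hn⟩ := hI.bddAbove
  refine ⟨n + 1, fun z' hz' => htU fun i hi => ?_⟩
  have h1 : z' i = z i := by
    have := congrFun hz' ⟨i, Nat.lt_succ_of_le (hn hi)⟩
    simpa [res] using this
  rw [h1]
  exact mem_of_mem_nhds (ht i)

lemma res_eq_mono {m n : ℕ} (h : m ≤ n) {z z' : Cantor} (hz : res n z = res n z') :
    res m z = res m z' := by
  funext i
  exact congrFun hz ⟨i, lt_of_lt_of_le i.2 h⟩

lemma isOpen_res_fiber (n : ℕ) (c : Fin n → Bool) : IsOpen {z : Cantor | res n z = c} :=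
  (isOpen_discrete {c}).preimage (continuous_res n)

/-- Locally constant choice on the Cantor space. -/
lemma exists_locConst_choice {X : Type*} (P : Cantor → X → Prop)
    (h : ∀ z₀ : Cantor, ∃ y, ∀ᶠ z in 𝓝 z₀, P z y) :
    ∃ (n : ℕ) (c : (Fin n → Bool) → X), ∀ z, P z (c (res n z)) := by
  choose y hy using h
  have h1 : ∀ z₀ : Cantor, ∃ n : ℕ, ∀ z : Cantor, res n z = res n z₀ → P z (y z₀) :=
    fun z₀ => exists_res_nhds (hy z₀)
  choose n hn using h1
  obtain ⟨t, ht⟩ := (isCompact_univ (X := Cantor)).elim_finite_subcover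
    (fun z₀ : Cantor => {z : Cantor | res (n z₀) z = res (n z₀) z₀})
    (fun z₀ => isOpen_res_fiber _ _) (fun z _ => mem_iUnion.2 ⟨z, rfl⟩)
  let N : ℕ := t.sup n
  have h2 : ∀ c : Fin N → Bool, ∃ x : X, ∀ z : Cantor, res N z = c → P z x := by
    intro c
    have : ext N c ∈ ⋃ i ∈ t, {z : Cantor | res (n i) z = res (n i) i} := ht (mem_univ _)
    simp only [mem_iUnion, mem_ofPred_eq] at this
    obtain ⟨z₀, hz₀, hz₀'⟩ := this
    refine ⟨y z₀, fun z hz => hn z₀ z ?_⟩
    rw [← hz₀']
    apply res_eq_mono (Finset.le_sup hz₀ : n z₀ ≤ N)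
    rw [res_ext, hz]
  choose c hc using h2
  exact ⟨N, c, fun z => hc _ z rfl⟩

lemma continuous_comp_res {X : Type*} [TopologicalSpace X] (n : ℕ) (c : (Fin n → Bool) → X) :
    Continuous fun z : Cantor => c (res n z) :=
  (continuous_of_discreteTopology (f := c)).comp (continuous_res n)

/-- Zero-dimensional selection theorem. -/
theorem exists_selection {X : Type*} [TopologicalSpace X] [CompactSpace X]
    [TopologicalSpace.MetrizableSpace X] (F : Cantor → Set X) (hne : ∀ z, (F z).Nonempty)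
    (hcl : ∀ z, IsClosed (F z)) (hlsc : ∀ V, IsOpen V → IsOpen {z | (F z ∩ V).Nonempty}) :
    ∃ σ : Cantor → X, Continuous σ ∧ ∀ z, σ z ∈ F z := by
  let : MetricSpace X := TopologicalSpace.metrizableSpaceMetric X
  let A : ℕ → Set C(Cantor, X) := fun n => {x | ∀ z, ∃ y ∈ F z, dist (x z) y < (1 / 2 : ℝ) ^ n}
  have step : ∀ n (x : C(Cantor, X)), x ∈ A n →
      ∃ x' : C(Cantor, X), x' ∈ A (n + 1) ∧ ∀ z, dist (x z) (x' z) < (1 / 2 : ℝ) ^ n := by
    intro n x hx
    obtain ⟨N, c, hc⟩ := exists_locConst_choice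
      (fun z y => dist (x z) y < (1 / 2 : ℝ) ^ n ∧ ∃ y' ∈ F z, dist y y' < (1 / 2 : ℝ) ^ (n + 1))
      (by
        intro z₀
        obtain ⟨y, hyF, hy⟩ := hx z₀
        refine ⟨y, ?_⟩
        have h1 : ∀ᶠ z in 𝓝 z₀, dist (x z) y < (1 / 2 : ℝ) ^ n := by
          have : Continuous fun z => dist (x z) y := by fun_prop
          exact this.continuousAt.eventually_lt continuousAt_const hy
        have h2 : {z | (F z ∩ Metric.ball y ((1 / 2 : ℝ) ^ (n + 1))).Nonempty} ∈ 𝓝 z₀ :=
          (hlsc _ Metric.isOpen_ball).mem_nhds ⟨y, hyF, Metric.mem_ball_self (by positivity)⟩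
        filter_upwards [h1, h2] with z hz1 hz2
        refine ⟨hz1, ?_⟩
        obtain ⟨y', hy'1, hy'2⟩ := hz2
        exact ⟨y', hy'1, by rw [dist_comm]; exact hy'2⟩)
    refine ⟨⟨fun z => c (res N z), continuous_comp_res N c⟩, fun z => (hc z).2, fun z => (hc z).1⟩
  -- the initial point
  have h0 : ∃ x : C(Cantor, X), ∀ z, ∃ y ∈ F z, dist (x z) y < (1 / 2 : ℝ) ^ 0 := by
    obtain ⟨N, c, hc⟩ := exists_locConst_choice
      (fun z y => ∃ y' ∈ F z, dist y y' < (1 / 2 : ℝ) ^ 0)
      (by
        intro z₀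
        obtain ⟨y, hyF⟩ := hne z₀
        refine ⟨y, ?_⟩
        have h2 : {z | (F z ∩ Metric.ball y ((1 / 2 : ℝ) ^ 0)).Nonempty} ∈ 𝓝 z₀ :=
          (hlsc _ Metric.isOpen_ball).mem_nhds ⟨y, hyF, Metric.mem_ball_self (by positivity)⟩
        filter_upwards [h2] with z hz2
        obtain ⟨y', hy'1, hy'2⟩ := hz2
        exact ⟨y', hy'1, by rw [dist_comm]; exact hy'2⟩)
    exact ⟨⟨fun z => c (res N z), continuous_comp_res N c⟩, hc⟩
  obtain ⟨x₀, hx₀⟩ := h0
  choose! next hnext1 hnext2 using step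
  let x : ℕ → C(Cantor, X) := fun n => Nat.rec x₀ (fun n x => next n x) n
  have hxA : ∀ n, x n ∈ A n := by
    intro n
    induction n with
    | zero => exact hx₀
    | succ n ih => exact hnext1 n (x n) ih
  have hdist : ∀ n, dist (x n) (x (n + 1)) ≤ 1 * (1 / 2 : ℝ) ^ n := by
    intro n
    rw [one_mul]
    rw [ContinuousMap.dist_le (by positivity)]
    intro z
    exact (hnext2 n (x n) (hxA n) z).le
  have hcauchy : CauchySeq x := cauchySeq_of_le_geometric (1 / 2 : ℝ) 1 (by norm_num) hdist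
  obtain ⟨σ, hσ⟩ := cauchySeq_tendsto_of_complete hcauchy
  refine ⟨σ, σ.continuous, fun z => ?_⟩
  have hz : Tendsto (fun n => x n z) atTop (𝓝 (σ z)) :=
    ((continuous_eval_const z).tendsto σ).comp hσ
  choose! y hyF hy using fun n => hxA n z
  have hyz : Tendsto y atTop (𝓝 (σ z)) := by
    refine (tendsto_iff_of_dist ?_).1 hz
    refine squeeze_zero (fun _ => dist_nonneg) (fun n => (hy n).le) ?_
    exact tendsto_pow_atTop_nhds_zero_of_lt_one (by norm_num) (by norm_num)
  exact (hcl z).mem_of_tendsto hyz (Eventually.of_forall hyF)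

/-- Lifting a map from the Cantor space along a homomorphism of compact groups. -/
theorem exists_lift {G M L : Type*} [Group G] [TopologicalSpace G] [IsTopologicalGroup G]
    [CompactSpace G]
    [Group M] [TopologicalSpace M] [IsTopologicalGroup M] [T2Space M]
    [Group L] [TopologicalSpace L] [T2Space L] [SecondCountableTopology L]
    (ψ : G →* M) (hψ : Continuous ψ) (φ : G →* L) (hφ : Continuous φ)
    (τ : Cantor → M) (hτ : Continuous τ) (hτψ : ∀ z, ∃ g, ψ g = τ z) :
    ∃ σ : Cantor → L, Continuous σ ∧ ∀ z, ∃ g, ψ g = τ z ∧ φ g = σ z := by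
  let X : Set L := range φ
  have : CompactSpace X := isCompact_iff_compactSpace.1 (isCompact_range hφ)
  -- X is metrizable
  have : TopologicalSpace.MetrizableSpace X := inferInstance
  let F : Cantor → Set X := fun z => {x | ∃ g, ψ g = τ z ∧ φ g = x}
  have hFcl : ∀ z, IsClosed (F z) := by
    intro z
    have hc : IsCompact {g | ψ g = τ z} := (isClosed_eq hψ continuous_const).isCompact
    have : F z = (fun g => (⟨φ g, g, rfl⟩ : X)) '' {g | ψ g = τ z} := by
      ext x
      constructor
      · rintro ⟨g, h1, h2⟩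
        exact ⟨g, h1, Subtype.ext h2⟩
      · rintro ⟨g, h1, h2⟩
        exact ⟨g, h1, congrArg Subtype.val h2⟩
    rw [this]
    exact (hc.image (by fun_prop)).isClosed
  obtain ⟨σ, hσ, hσF⟩ := exists_selection F
    (fun z => by
      obtain ⟨g, hg⟩ := hτψ z
      exact ⟨⟨φ g, g, rfl⟩, g, hg, rfl⟩) hFcl
    (by
      intro V hV
      -- ψ onto its range is open
      have : CompactSpace ψ.range := isCompact_iff_compactSpace.1
        (by simpa using (isCompact_range hψ))
      have hopen : IsOpenMap ψ.rangeRestrict :=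
        MonoidHom.isOpenMap_of_sigmaCompact _ ψ.rangeRestrict_surjective
          (by exact Continuous.subtype_mk hψ _)
      have hτ' : Continuous fun z => (⟨τ z, hτψ z⟩ : ψ.range) := by fun_prop
      have hV' : IsOpen ((fun g => (⟨φ g, g, rfl⟩ : X)) ⁻¹' V) := hV.preimage (by fun_prop)
      have := (hopen _ hV').preimage hτ'
      convert this using 1
      ext z
      constructor
      · rintro ⟨x, ⟨g, h1, h2⟩, hx⟩
        refine ⟨g, ?_, Subtype.ext h1⟩
        show (⟨φ g, g, rfl⟩ : X) ∈ V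
        have : (⟨φ g, g, rfl⟩ : X) = x := Subtype.ext h2
        rwa [this]
      · rintro ⟨g, h1, h2⟩
        exact ⟨⟨φ g, g, rfl⟩, ⟨g, congrArg Subtype.val h2, rfl⟩, h1⟩)
  refine ⟨fun z => (σ z : L), by fun_prop, fun z => ?_⟩
  obtain ⟨g, h1, h2⟩ := hσF z
  exact ⟨g, h1, h2⟩

end Pool.Agent.MP820cde
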