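import Mathlib
import Pool.Agent.MP_820cde_gt.Select

/-!
# Evaluation of words and the main compactness argument
-/

open Topology Set Filter

universe u v w

namespace Pool.Agent.MP820cde

section ev

variable {α β : Type*} {M M' : Type*} [Group M] [Group M']

/-- Evaluation of a word (a list of letters with signs). -/
def ev (y : α → M) (w : List (α × Bool)) : M :=
  (w.map fun p => cond p.2 (y p.1) (y p.1)⁻¹).prod

lemma ev_congr {y y' : α → M} {w : List (α × Bool)} (h : ∀ p ∈ w, y p.1 = y' p.1) :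
    ev y w = ev y' w := by
  unfold ev
  congr 1
  apply List.map_congr_left
  intro p hp
  rw [h p hp]

lemma ev_map (f : α → β) (y : β → M) (w : List (α × Bool)) :
    ev y (w.map (Prod.map f id)) = ev (fun a => y (f a)) w := by
  simp [ev, List.map_map, Function.comp_def]

lemma map_ev (θ : M →* M') (y : α → M) (w : List (α × Bool)) :
    θ (ev y w) = ev (fun a => θ (y a)) w := by
  unfold ev
  rw [map_list_prod, List.map_map]
  congr 1
  apply List.map_congr_left
  rintro ⟨a, b⟩ _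
  cases b <;> simp

lemma ev_apply {κ : Type*} {N : Type*} [Group N] (y : α → κ → N) (w : List (α × Bool)) (s : κ) :
    ev y w s = ev (fun a => y a s) w :=
  map_ev (Pi.evalMonoidHom (fun _ : κ => N) s) y w

lemma freeGroup_lift_mk (y : α → M) (w : List (α × Bool)) :
    FreeGroup.lift y (FreeGroup.mk w) = ev y w := by
  simp [ev]

lemma exists_ev_of_mem {y : α → M} {h : M} (hh : h ∈ (FreeGroup.lift y).range) :
    ∃ w, ev y w = h := by
  classical
  obtain ⟨x, rfl⟩ := hh
  refine ⟨x.toWord, ?_⟩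
  rw [← freeGroup_lift_mk, FreeGroup.mk_toWord]

lemma ev_mem (y : α → M) (w : List (α × Bool)) : ev y w ∈ (FreeGroup.lift y).range :=
  ⟨FreeGroup.mk w, freeGroup_lift_mk y w⟩

lemma continuous_ev [TopologicalSpace M] [IsTopologicalGroup M] (w : List (α × Bool)) :
    Continuous fun y : α → M => ev y w := by
  unfold ev
  apply continuous_list_prod
  rintro ⟨a, b⟩ _
  cases b
  · exact (continuous_apply a).inv
  · exact continuous_apply a

/-- Words of a given length as a topological space. -/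
abbrev WordSpace (α : Type*) : Type _ := Σ k : ℕ, Fin k → α × Bool

/-- The list of a word. -/
def WordSpace.toList (w : WordSpace α) : List (α × Bool) := (List.finRange w.1).map w.2

lemma WordSpace.exists_toList (l : List (α × Bool)) : ∃ w : WordSpace α, w.toList = l := by
  refine ⟨⟨l.length, l.get⟩, ?_⟩
  simp only [WordSpace.toList]
  exact List.map_get_finRange l

lemma continuous_ev_word [TopologicalSpace α] [TopologicalSpace M] [IsTopologicalGroup M]
    (y : α → M) (hy : Continuous y) : Continuous fun w : WordSpace α => ev y w.toList := by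
  refine continuous_sigma fun k => ?_
  simp only [ev, WordSpace.toList, List.map_map, Function.comp_def]
  apply continuous_list_prod
  intro j _
  have h1 : Continuous fun p : α × Bool => cond p.2 (y p.1) (y p.1)⁻¹ := by
    rw [continuous_prod_of_discrete_right]
    intro b
    cases b
    · exact hy.inv
    · exact hy
  exact h1.comp (continuous_apply j)

end ev

/-- Condensation in a second countable space for nets indexed by countable sets. -/
lemma exists_condensation {ι : Type*} {X : Type*} [TopologicalSpace X]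
    [SecondCountableTopology X] (w : {J : Set ι // J.Countable} → X) :
    ∃ J₁, ∀ U ∈ 𝓝 (w J₁), ∀ J₀ : {J : Set ι // J.Countable}, ∃ J, J₀.1 ⊆ J.1 ∧ w J ∈ U := by
  classical
  by_contra hcon
  push Not at hcon
  choose U hU J₀ hJ₀ using hcon
  let B := TopologicalSpace.countableBasis X
  have hB : ∀ J, ∃ b ∈ B, w J ∈ b ∧ b ⊆ U J := fun J => by
    obtain ⟨b, hb, h1, h2⟩ := (TopologicalSpace.isBasis_countableBasis X).mem_nhds_iff.1 (hU J)
    exact ⟨b, hb, h1, h2⟩
  have : Countable B := (TopologicalSpace.countable_countableBasis X).to_subtype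
  let K : B → {J : Set ι // J.Countable} := fun b =>
    if h : ∃ J₀ : {J : Set ι // J.Countable}, ∀ J : {J : Set ι // J.Countable}, J₀.1 ⊆ J.1 →
      w J ∉ b.1 then h.choose else ⟨∅, countable_empty⟩
  let J₁ : {J : Set ι // J.Countable} := ⟨⋃ b, (K b).1, countable_iUnion fun b => (K b).2⟩
  obtain ⟨b, hb, h1, h2⟩ := hB J₁
  have hex : ∃ J₀ : {J : Set ι // J.Countable}, ∀ J : {J : Set ι // J.Countable}, J₀.1 ⊆ J.1 →
      w J ∉ b := ⟨J₀ J₁, fun J hJ hw => hJ₀ J₁ J hJ (h2 hw)⟩
  have h3 : K ⟨b, hb⟩ = hex.choose := dif_pos hex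
  have h4 := hex.choose_spec J₁ (by
    rw [← h3]
    exact subset_iUnion (fun b => (K b).1) ⟨b, hb⟩)
  exact h4 h1

/-- The data produced by the construction. -/
structure Data {G : Type u} {L : Type v} {ι : Type w} [Group G] [Group L] [TopologicalSpace L]
    (φ : ι → G →* L) where
  /-- index set -/
  S : Set ι
  /-- generators -/
  x : Cantor → G
  /-- tails -/
  R : Cantor → ι → L
  hR : ∀ s ∈ S, Continuous fun z => R z s
  hx : ∀ z, {s | s ∈ S ∧ φ s (x z) ≠ R z s}.Countable
  hfree : ∀ w : List (Cantor × Bool), {s | s ∈ S ∧ ev (fun z => R z s) w ≠ 1}.Countable →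
    ∀ s ∈ S, ev (fun z => φ s (x z)) w = 1
  hdense : ∀ g : G, ∀ J ⊆ S, J.Countable → ∃ z, ∀ s ∈ J, φ s (x z) = φ s g
  hnontriv : ∀ J ⊆ S, J.Countable → ∃ g, (∀ s ∈ J, φ s g = 1) ∧ ∃ s ∈ S, φ s g ≠ 1

namespace Data

variable {G : Type u} {L : Type v} {ι : Type w} [Group G] [Group L] [TopologicalSpace L]
    {φ : ι → G →* L} (d : Data φ)

/-- The homomorphism to the product. -/
def Φ : G →* (d.S → L) := MonoidHom.pi fun s : d.S => φ s.1

@[simp] lemma Φ_apply (g : G) (s : d.S) : d.Φ g s = φ s.1 g := rfl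

/-- The images of the generators. -/
def F (z : Cantor) : d.S → L := d.Φ (d.x z)

/-- The subgroup of the product generated by the generators. -/
def H : Subgroup (d.S → L) := (FreeGroup.lift d.F).range

lemma H_le_range : d.H ≤ d.Φ.range := by
  intro h hh
  obtain ⟨w, rfl⟩ := exists_ev_of_mem hh
  exact ⟨ev d.x w, map_ev d.Φ d.x w⟩

lemma countable_ne (w : List (Cantor × Bool)) :
    {s : d.S | ev d.F w s ≠ ev (fun z => d.R z s.1) w}.Countable := by
  have h1 : (⋃ p ∈ {p | p ∈ w}, {s : d.S | φ s.1 (d.x p.1) ≠ d.R p.1 s.1}).Countable := by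
    apply Set.Countable.biUnion
    · exact (List.finite_toSet w).countable
    · intro p _
      have := d.hx p.1
      have h2 : {s : d.S | φ s.1 (d.x p.1) ≠ d.R p.1 s.1} =
        Subtype.val ⁻¹' {s | s ∈ d.S ∧ φ s (d.x p.1) ≠ d.R p.1 s} := by
        ext s
        simp
      rw [h2]
      exact this.preimage Subtype.val_injective
  refine h1.mono fun s hs => ?_
  by_contra hcon
  apply hs
  rw [ev_apply]
  apply ev_congr
  intro p hp
  by_contra hne
  apply hcon
  simp only [mem_iUnion]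
  exact ⟨p, hp, hne⟩

/-- An element of `H` with countable support is trivial. -/
lemma eq_one_of_countable {h : d.S → L} (hh : h ∈ d.H) (hc : {s | h s ≠ 1}.Countable) : h = 1 := by
  obtain ⟨w, rfl⟩ := exists_ev_of_mem hh
  have h1 : {s : d.S | ev (fun z => d.R z s.1) w ≠ 1}.Countable := by
    refine (hc.union (d.countable_ne w)).mono fun s hs => ?_
    by_cases hs' : ev d.F w s = ev (fun z => d.R z s.1) w
    · left
      show ev d.F w s ≠ 1
      rw [hs']
      exact hs
    · exact Or.inr hs'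
  have h2 : {s | s ∈ d.S ∧ ev (fun z => d.R z s) w ≠ 1}.Countable := by
    refine (h1.image Subtype.val).mono ?_
    rintro s ⟨hs, hs'⟩
    exact ⟨⟨s, hs⟩, hs', rfl⟩
  funext s
  rw [ev_apply]
  exact d.hfree w h2 s.1 s.2

/-- Main compactness argument. -/
theorem exists_countable_injOn [T2Space L] [IsTopologicalGroup L] {C : Set (d.S → L)}
    (hC : IsCompact C) (hCH : C ⊆ d.H) :
    ∃ J : Set d.S, J.Countable ∧ ∀ x ∈ C, ∀ y ∈ C, (∀ s ∈ J, x s = y s) → x = y := by
  by_contra hcon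
  push Not at hcon
  let C' : Set (d.S → L) := (fun p : (d.S → L) × (d.S → L) => p.1⁻¹ * p.2) '' (C ×ˢ C)
  have hC' : IsCompact C' := (hC.prod hC).image (by fun_prop)
  have hC'H : C' ⊆ d.H := by
    rintro _ ⟨⟨x, y⟩, ⟨hx, hy⟩, rfl⟩
    exact mul_mem (inv_mem (hCH hx)) (hCH hy)
  have hz : ∀ J : {J : Set d.S // J.Countable}, ∃ w : WordSpace Cantor,
      ev d.F w.toList ∈ C' ∧ (∀ s ∈ J.1, ev d.F w.toList s = 1) ∧ ev d.F w.toList ≠ 1 := by
    rintro ⟨J, hJ⟩
    obtain ⟨x, hx, y, hy, hxy, hne⟩ := hcon J hJ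
    have hmem : x⁻¹ * y ∈ C' := ⟨(x, y), ⟨hx, hy⟩, rfl⟩
    obtain ⟨l, hl⟩ := exists_ev_of_mem (hC'H hmem)
    obtain ⟨w, hw⟩ := WordSpace.exists_toList l
    refine ⟨w, ?_⟩
    rw [hw]
    change ev d.F l = _ at hl
    rw [hl]
    refine ⟨hmem, fun s hs => ?_, fun h => hne ?_⟩
    · rw [Pi.mul_apply, Pi.inv_apply, hxy s hs, inv_mul_cancel]
    · exact inv_mul_eq_one.1 h
  choose w hwC hwJ hwne using hz
  obtain ⟨J₁, hJ₁⟩ := exists_condensation w
  -- a coordinate at which the distinguished element is non-trivial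
  have hs₀ : ∃ s₀, ev d.F (w J₁).toList s₀ ≠ 1 := by
    by_contra h
    push Not at h
    exact hwne J₁ (funext h)
  obtain ⟨s₀, hs₀⟩ := hs₀
  obtain ⟨U, hU⟩ := (𝓝 (w J₁)).exists_antitone_basis
  have hJn : ∀ n, ∃ J, s₀ ∈ J.1 ∧ w J ∈ U n := by
    intro n
    obtain ⟨J, h1, h2⟩ := hJ₁ (U n) (hU.toHasBasis.mem_of_mem trivial) ⟨{s₀}, countable_singleton _⟩
    exact ⟨J, h1 rfl, h2⟩
  choose J hJs hJU using hJn
  have hlim : Tendsto (fun n => w (J n)) atTop (𝓝 (w J₁)) := hU.tendsto hJU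
  let 𝒰 : Ultrafilter ℕ := hyperfilter ℕ
  have h𝒰 : (𝒰 : Filter ℕ) ≤ atTop := by
    rw [← Nat.cofinite_eq_atTop]
    exact hyperfilter_le_cofinite
  obtain ⟨c, hc, hcl⟩ := hC'.ultrafilter_le_nhds (𝒰.map fun n : ℕ => ev d.F (w (J n)).toList) (by
    rw [Ultrafilter.coe_map, le_principal_iff]
    exact Filter.mem_map.2 (Filter.univ_mem' fun n : ℕ => hwC (J n)))
  have hclim : Tendsto (fun n => ev d.F (w (J n)).toList) 𝒰 (𝓝 c) := hcl
  have hcs : ∀ s, Tendsto (fun n => ev d.F (w (J n)).toList s) 𝒰 (𝓝 (c s)) := fun s =>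
    ((continuous_apply s).tendsto c).comp hclim
  have hcs₀ : c s₀ = 1 := by
    refine tendsto_nhds_unique (hcs s₀) ?_
    have : (fun n => ev d.F (w (J n)).toList s₀) = fun _ => 1 := by
      funext n
      exact hwJ (J n) s₀ (hJs n)
    rw [this]
    exact tendsto_const_nhds
  -- exceptional coordinates
  have hE : (⋃ n, {s : d.S | ev d.F (w (J n)).toList s ≠
      ev (fun z => d.R z s.1) (w (J n)).toList}).Countable :=
    countable_iUnion fun n => d.countable_ne _
  have hE' := hE.union (d.countable_ne (w J₁).toList)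
  have hagree : ∀ s, s ∉ (⋃ n, {s : d.S | ev d.F (w (J n)).toList s ≠
      ev (fun z => d.R z s.1) (w (J n)).toList}) ∪
      {s : d.S | ev d.F (w J₁).toList s ≠ ev (fun z => d.R z s.1) (w J₁).toList} →
      c s = ev d.F (w J₁).toList s := by
    intro s hs
    rw [mem_union, not_or] at hs
    have h1 : ∀ n, ev d.F (w (J n)).toList s = ev (fun z => d.R z s.1) (w (J n)).toList := by
      intro n
      by_contra h
      exact hs.1 (mem_iUnion.2 ⟨n, h⟩)
    have h2 : ev d.F (w J₁).toList s = ev (fun z => d.R z s.1) (w J₁).toList := by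
      by_contra h
      exact hs.2 h
    rw [h2]
    refine tendsto_nhds_unique (hcs s) ?_
    simp_rw [h1]
    exact ((continuous_ev_word _ (d.hR s.1 s.2)).tendsto (w J₁)).comp (hlim.mono_left h𝒰)
  have hfin : c * (ev d.F (w J₁).toList)⁻¹ = 1 := by
    apply d.eq_one_of_countable (mul_mem (hC'H hc) (inv_mem (hC'H (hwC J₁))))
    refine hE'.mono fun s hs => ?_
    by_contra hns
    apply hs
    rw [Pi.mul_apply, Pi.inv_apply, hagree s hns, mul_inv_cancel]
  have h5 : c = ev d.F (w J₁).toList := mul_inv_eq_one.1 hfin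
  exact hs₀ (by rw [← h5]; exact hcs₀)

/-- Density of `H` in countably many coordinates. -/
lemma exists_mem_H (g : G) {J : Set d.S} (hJ : J.Countable) :
    ∃ h ∈ d.H, ∀ s ∈ J, h s = φ s.1 g := by
  obtain ⟨z, hz⟩ := d.hdense g (Subtype.val '' J) (by rintro _ ⟨s, -, rfl⟩; exact s.2)
    (hJ.image _)
  refine ⟨d.F z, ⟨FreeGroup.of z, by simp⟩, fun s hs => hz s.1 ⟨s, hs, rfl⟩⟩

/-- `H` is not second countable. -/
theorem not_secondCountable [T2Space L] : ¬ SecondCountableTopology d.H := by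
  intro hsc
  obtain ⟨U, hU⟩ := (𝓝 (1 : d.H)).exists_antitone_basis
  have h1 : ∀ n, ∃ I : Set d.S, I.Finite ∧ ∀ h : d.H, (∀ s ∈ I, h.1 s = 1) → h ∈ U n := by
    intro n
    have h2 : U n ∈ 𝓝 (1 : d.H) := hU.toHasBasis.mem_of_mem trivial
    rw [nhds_subtype_eq_comap, mem_comap] at h2
    obtain ⟨V, hV, hVU⟩ := h2
    rw [nhds_pi, Filter.mem_pi] at hV
    obtain ⟨I, hI, t, ht, htV⟩ := hV
    refine ⟨I, hI, fun h hh => hVU ?_⟩
    apply htV
    intro s hs
    rw [hh s hs]
    exact mem_of_mem_nhds (ht s)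
  choose I hI hIU using h1
  have hJ : (⋃ n, I n).Countable := countable_iUnion fun n => (hI n).countable
  obtain ⟨g, hg1, s, hs, hg2⟩ := d.hnontriv (Subtype.val '' ⋃ n, I n)
    (by rintro _ ⟨s, -, rfl⟩; exact s.2) (hJ.image _)
  obtain ⟨h, hh, hh'⟩ := d.exists_mem_H g (hJ.union (countable_singleton (⟨s, hs⟩ : d.S)))
  have h3 : ∀ n, (⟨h, hh⟩ : d.H) ∈ U n := by
    intro n
    apply hIU
    intro s' hs'
    change h s' = 1
    rw [hh' s' (Or.inl (mem_iUnion.2 ⟨n, hs'⟩))]
    exact hg1 s'.1 ⟨s', mem_iUnion.2 ⟨n, hs'⟩, rfl⟩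
  have h4 : (⟨h, hh⟩ : d.H) = 1 := by
    by_contra hne
    have h5 : ({(⟨h, hh⟩ : d.H)}ᶜ : Set d.H) ∈ 𝓝 (1 : d.H) :=
      isOpen_compl_singleton.mem_nhds (by simpa using Ne.symm hne)
    obtain ⟨n, -, hn⟩ := hU.toHasBasis.mem_iff.1 h5
    exact hn (h3 n) rfl
  have h5 : h = 1 := congrArg Subtype.val h4
  apply hg2
  have := hh' ⟨s, hs⟩ (Or.inr rfl)
  rw [← this, h5]
  rfl

end Data

end Pool.Agent.MP820cde
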