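import Mathlib
import Pool.Agent.MP_820cde_gt.Select
import Pool.Agent.MP_820cde_gt.Refine
import Pool.Agent.MP_820cde_gt.Indep
import Pool.Agent.MP_820cde_gt.Words

/-!
# The construction of the generators
-/

open Topology Set Filter Cardinal

universe u v w

namespace Pool.Agent.MP820cde

section patterns

variable {L : Type v} [Group L] [TopologicalSpace L] [IsTopologicalGroup L] [T2Space L]

/-- Approximation of the coset part by a countable dense set. -/
lemma exists_dense_choice {σ : Cantor → L} {A : Set L} {α : ℕ → L}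
    (hα : A ⊆ closure (range α)) {w : List (Cantor × Bool)} {y : Cantor → L}
    (hy : ∀ z, ∃ m ∈ A, y z = σ z * m) (hne : ev y w ≠ 1) :
    ∃ i : Cantor → ℕ, ev (fun z => σ z * α (i z)) w ≠ 1 := by
  choose m hm hym using hy
  have hcont : Continuous fun β : Cantor → L => ev (fun z => σ z * β z) w := by
    have h1 : Continuous fun β : Cantor → L => (fun z => σ z * β z) := by fun_prop
    exact (continuous_ev w).comp h1
  have hm' : m ∈ closure (Set.pi univ fun _ : Cantor => range α) := by
    rw [closure_pi_set]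
    exact fun z _ => hα (hm z)
  have hopen : IsOpen {β : Cantor → L | ev (fun z => σ z * β z) w ≠ 1} :=
    isOpen_ne.preimage hcont
  have hmem : m ∈ {β : Cantor → L | ev (fun z => σ z * β z) w ≠ 1} := by
    show ev (fun z => σ z * m z) w ≠ 1
    rw [← funext hym]
    exact hne
  obtain ⟨β, hβ1, hβ2⟩ := mem_closure_iff.1 hm' _ hopen hmem
  have hβ3 : ∀ z, ∃ n, α n = β z := fun z => hβ2 z trivial
  choose i hi using hβ3
  refine ⟨i, ?_⟩
  simp_rw [hi]
  exact hβ1

lemma eventually_res_ne {z z' : Cantor} (h : z ≠ z') : ∀ᶠ n in atTop, res n z ≠ res n z' := by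
  obtain ⟨k, hk⟩ := Function.ne_iff.1 h
  filter_upwards [eventually_gt_atTop k] with n hn heq
  exact hk (congrFun heq ⟨k, hn⟩)

/-- Approximation of the Cantor space variables by finite levels. -/
lemma exists_level {σ : Cantor → L} (hσ : Continuous σ) (α : ℕ → L)
    (w : List (Cantor × Bool)) (i : Cantor → ℕ)
    (hne : ev (fun z => σ z * α (i z)) w ≠ 1) :
    ∃ (n : ℕ) (r : (Fin n → Bool) → Cantor), (∀ p ∈ w, r (res n p.1) = p.1) ∧
      (∀ c, res n (r c) = c) ∧
      ∀ ν : (Fin n → Bool) → Cantor, (∀ c, res n (ν c) = c) →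
        ev (fun c => σ (ν c) * α (i (r c))) (w.map (Prod.map (res n) id)) ≠ 1 := by
  classical
  have hinj : ∀ᶠ n in atTop, ∀ p ∈ w, ∀ q ∈ w, res n p.1 = res n q.1 → p.1 = q.1 := by
    have h1 : ∀ p ∈ {p | p ∈ w}, ∀ᶠ n in atTop, ∀ q ∈ w, res n p.1 = res n q.1 → p.1 = q.1 := by
      intro p _
      have h2 : ∀ q ∈ {q | q ∈ w}, ∀ᶠ n in atTop, res n p.1 = res n q.1 → p.1 = q.1 := by
        intro q _
        by_cases hpq : p.1 = q.1
        · exact Eventually.of_forall fun n _ => hpq
        · filter_upwards [eventually_res_ne hpq] with n hn h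
          exact absurd h hn
      exact (Filter.eventually_all_finite (List.finite_toSet w)).2 h2
    exact (Filter.eventually_all_finite (List.finite_toSet w)).2 h1
  -- sections adapted to the letters
  have hr : ∀ n, (∀ p ∈ w, ∀ q ∈ w, res n p.1 = res n q.1 → p.1 = q.1) →
      ∃ r : (Fin n → Bool) → Cantor, (∀ p ∈ w, r (res n p.1) = p.1) ∧ ∀ c, res n (r c) = c := by
    intro n hn
    refine ⟨fun c => if h : ∃ p ∈ w, res n p.1 = c then h.choose.1 else ext n c, ?_, ?_⟩
    · intro p hp
      have hex : ∃ q ∈ w, res n q.1 = res n p.1 := ⟨p, hp, rfl⟩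
      beta_reduce
      rw [dif_pos hex]
      exact hn _ hex.choose_spec.1 _ hp hex.choose_spec.2
    · intro c
      by_cases hex : ∃ p ∈ w, res n p.1 = c
      · beta_reduce
        rw [dif_pos hex]
        exact hex.choose_spec.2
      · beta_reduce
        rw [dif_neg hex]
        exact res_ext n c
  by_contra hcon
  push Not at hcon
  have hbad : ∀ n, ∃ ν : (Fin n → Bool) → Cantor, (∀ c, res n (ν c) = c) ∧
      ((∀ p ∈ w, ∀ q ∈ w, res n p.1 = res n q.1 → p.1 = q.1) →
        ev (fun z => σ (ν (res n z)) * α (i z)) w = 1) := by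
    intro n
    by_cases hn : ∀ p ∈ w, ∀ q ∈ w, res n p.1 = res n q.1 → p.1 = q.1
    · obtain ⟨r, hr1, hr2⟩ := hr n hn
      obtain ⟨ν, hν1, hν2⟩ := hcon n r hr1 hr2
      refine ⟨ν, hν1, fun _ => ?_⟩
      rw [ev_map] at hν2
      rw [← hν2]
      apply ev_congr
      intro p hp
      rw [hr1 p hp]
    · exact ⟨ext n, res_ext n, fun h => absurd h hn⟩
  choose ν hν1 hν2 using hbad
  have hνlim : ∀ z : Cantor, Tendsto (fun n => ν n (res n z)) atTop (𝓝 z) := by
    intro z
    rw [tendsto_def]
    intro U hU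
    obtain ⟨m, hm⟩ := exists_res_nhds hU
    filter_upwards [eventually_ge_atTop m] with n hn
    apply hm
    apply res_eq_mono hn
    rw [hν1]
  have hlim : Tendsto (fun n => ev (fun z => σ (ν n (res n z)) * α (i z)) w) atTop
      (𝓝 (ev (fun z => σ z * α (i z)) w)) := by
    have h1 : Tendsto (fun n z => σ (ν n (res n z)) * α (i z)) atTop
        (𝓝 (fun z => σ z * α (i z))) := by
      rw [tendsto_pi_nhds]
      intro z
      exact ((hσ.tendsto z).comp (hνlim z)).mul_const _
    exact ((continuous_ev w).tendsto _).comp h1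
  apply hne
  refine tendsto_nhds_unique hlim ?_
  refine tendsto_const_nhds.congr' ?_
  filter_upwards [hinj] with n hn
  exact (hν2 n hn).symm

end patterns

/-- Types of patterns. -/
abbrev Pat : Type := Σ n : ℕ, (List ((Fin n → Bool) × Bool)) × ((Fin n → Bool) → ℕ)

instance : Countable Pat := by
  have : ∀ n : ℕ, Countable ((List ((Fin n → Bool) × Bool)) × ((Fin n → Bool) → ℕ)) := by
    intro n
    infer_instance
  infer_instance

/-- The value of a pattern. -/
def Pat.val (t : Pat) (z : Cantor) : ℕ := t.2.2 (res t.1 z)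

/-- Even part of a sequence. -/
def evenPart (z : Cantor) : Cantor := fun i => z (2 * i)

/-- Odd part of a sequence. -/
def oddPart (z : Cantor) : Cantor := fun i => z (2 * i + 1)

lemma continuous_evenPart : Continuous evenPart := by
  unfold evenPart
  fun_prop

lemma exists_merge (a b : Cantor) : ∃ z, evenPart z = a ∧ oddPart z = b := by
  refine ⟨fun n => if n % 2 = 0 then a (n / 2) else b (n / 2), ?_, ?_⟩
  · funext i
    simp [evenPart]
  · funext i
    have h1 : (2 * i + 1) % 2 = 1 := by omega
    have h2 : (2 * i + 1) / 2 = i := by omega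
    simp only [oddPart, h1, h2]
    simp

/-- A second countable `T0` space injects into the Cantor space. -/
lemma exists_injective_cantor (X : Type*) [TopologicalSpace X] [SecondCountableTopology X]
    [T0Space X] : ∃ f : X → Cantor, Function.Injective f := by
  classical
  let B := TopologicalSpace.countableBasis X
  have hBc : B.Countable := TopologicalSpace.countable_countableBasis X
  have : Countable B := hBc.to_subtype
  obtain ⟨e, he⟩ := exists_injective_nat B
  refine ⟨fun x n => decide (∃ b : B, e b = n ∧ x ∈ b.1), fun x y hxy => ?_⟩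
  by_contra hne
  have h1 : ∀ b : B, x ∈ b.1 ↔ y ∈ b.1 := by
    intro b
    have h2 := congrFun hxy (e b)
    simp only [decide_eq_decide] at h2
    constructor
    · intro hx
      obtain ⟨b', hb', hy⟩ := h2.1 ⟨b, rfl, hx⟩
      rwa [he hb'] at hy
    · intro hy
      obtain ⟨b', hb', hx⟩ := h2.2 ⟨b, rfl, hy⟩
      rwa [he hb'] at hx
  apply hne
  apply Inseparable.eq
  rw [(TopologicalSpace.isBasis_countableBasis X).inseparable_iff]
  intro b hb
  exact h1 ⟨b, hb⟩

lemma exists_decode {S : Type w} {L : Type v} (hS : ∃ f : S → Cantor, Function.Injective f)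
    (hL : ∃ f : L → Cantor, Function.Injective f) [Nonempty S] [Nonempty L] :
    ∃ dec : Cantor → ℕ → S × L, Function.Surjective dec := by
  obtain ⟨f, hf⟩ := hS
  obtain ⟨g, hg⟩ := hL
  have h1 : #(ℕ → Cantor × Cantor) = #Cantor := by simp
  obtain ⟨e⟩ := Cardinal.eq.1 h1
  let F : (ℕ → S × L) → Cantor := fun t => e fun n => (f (t n).1, g (t n).2)
  have hF : Function.Injective F := by
    intro t t' htt
    have := e.injective htt
    funext n
    have hn := congrFun this n
    have h2 := (Prod.mk.inj hn).1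
    have h3 := (Prod.mk.inj hn).2
    exact Prod.ext (hf h2) (hg h3)
  exact ⟨Function.invFun F, Function.invFun_surjective hF⟩

lemma exists_small_uncountable {ι : Type w} {S : Set ι} (hS : ¬ S.Countable) :
    ∃ S₁ ⊆ S, ¬ S₁.Countable ∧ ∃ f : S₁ → Cantor, Function.Injective f := by
  have h1 : ℵ₁ ≤ #S := by
    rw [Cardinal.aleph_one_le_iff]
    rw [← Cardinal.le_aleph0_iff_set_countable, not_le] at hS
    exact hS
  obtain ⟨p, hp, hp'⟩ := Cardinal.le_mk_iff_exists_subset.1 h1
  refine ⟨p, hp, ?_, ?_⟩
  · rw [← Cardinal.le_aleph0_iff_set_countable, hp', not_le]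
    exact Cardinal.aleph0_lt_aleph_one
  · have h2 : Cardinal.lift.{0} #p ≤ Cardinal.lift.{w} #Cantor := by
      rw [hp']
      simp only [Cardinal.lift_id']
      have : #Cantor = 𝔠 := by simp
      rw [this]
      simpa using Cardinal.aleph_one_le_continuum
    obtain ⟨f⟩ := Cardinal.lift_mk_le'.1 h2
    exact ⟨f, f.injective⟩

end Pool.Agent.MP820cde
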