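import Mathlib
import Pool.Agent.MP_820cde_gt.Construct

/-!
# Existence of the data
-/

open Topology Set Filter Cardinal

universe u v w

namespace Pool.Agent.MP820cde

lemma FinIndep.mono {G : Type u} {L : Type v} {ι : Type w} [Group G] [Group L] {φ : ι → G →* L}
    {C S S' : Set ι} (h : FinIndep φ C S) (hS : S' ⊆ S) : FinIndep φ C S' :=
  ⟨fun s hs => h.1 s (hS hs), fun F hF a ha => h.2 F (hF.trans hS) a ha⟩

/-- A compact metrizable space is a continuous image of the Cantor space. -/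
lemma exists_cantor_surj (X : Type*) [TopologicalSpace X] [CompactSpace X]
    [TopologicalSpace.MetrizableSpace X] [Nonempty X] :
    ∃ f : Cantor → X, Continuous f ∧ Function.Surjective f := by
  let : MetricSpace X := TopologicalSpace.metrizableSpaceMetric X
  exact exists_nat_bool_continuous_surjective_of_compact X

/-- Countable dense sequences in the images of the kernel. -/
lemma exists_dense_seq {G : Type u} {L : Type v} [Group G] [Group L] [TopologicalSpace L]
    [SecondCountableTopology L] (f : G →* L) (K : Subgroup G) :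
    ∃ a : ℕ → G, (∀ n, a n ∈ K) ∧ (f '' (K : Set G)) ⊆ closure (range fun n => f (a n)) := by
  let A : Set L := f '' (K : Set G)
  have : Nonempty A := ⟨⟨f 1, 1, one_mem K, rfl⟩⟩
  have h1 : ∀ n, ∃ g ∈ K, f g = (TopologicalSpace.denseSeq A n).1 := fun n =>
    (TopologicalSpace.denseSeq A n).2
  choose a ha haf using h1
  refine ⟨a, ha, ?_⟩
  intro x hx
  have h2 : (⟨x, hx⟩ : A) ∈ closure (range (TopologicalSpace.denseSeq A)) :=
    (TopologicalSpace.denseRange_denseSeq A) _
  have h3 := image_closure_subset_closure_image (continuous_subtype_val (p := (· ∈ A)))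
    (mem_image_of_mem _ h2)
  have h4 : (range fun n => f (a n)) = Subtype.val '' range (TopologicalSpace.denseSeq A) := by
    rw [← range_comp]
    congr 1
    funext n
    exact haf n
  rw [h4]
  exact h3

theorem exists_data {G : Type u} {L : Type v} {ι : Type w} [Group G] [TopologicalSpace G]
    [IsTopologicalGroup G] [CompactSpace G] [Group L] [TopologicalSpace L]
    [IsTopologicalGroup L] [T2Space L] [SecondCountableTopology L] (φ : ι → G →* L)
    (hφ : ∀ i, Continuous (φ i)) {C S : Set ι} (hC : C.Countable) (hS : ¬ S.Countable)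
    (hind : FinIndep φ C S) : Nonempty (Data φ) := by
  classical
  obtain ⟨S₁, hS₁S, hS₁, hS₁inj⟩ := exists_small_uncountable hS
  replace hind := hind.mono hS₁S
  have : Nonempty S₁ := by
    by_contra h
    rw [not_nonempty_iff, isEmpty_coe_sort] at h
    rw [h] at hS₁
    exact hS₁ countable_empty
  -- the countable part
  have : Countable C := hC.to_subtype
  let ψ : G →* (C → L) := MonoidHom.pi fun i : C => φ i.1
  have hψ : Continuous ψ := continuous_pi fun i => hφ i.1
  have hψker : ∀ g, g ∈ ker φ C ↔ ψ g = 1 := by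
    intro g
    rw [mem_ker]
    constructor
    · intro h
      funext i
      exact h i.1 i.2
    · intro h i hi
      exact congrFun h ⟨i, hi⟩
  have : CompactSpace (range ψ) := isCompact_iff_compactSpace.1 (isCompact_range hψ)
  have : Nonempty (range ψ) := ⟨⟨ψ 1, 1, rfl⟩⟩
  obtain ⟨τ₁, hτ₁, hτ₁s⟩ := exists_cantor_surj (range ψ)
  let τ : Cantor → (C → L) := fun z => (τ₁ (evenPart z)).1
  have hτ : Continuous τ := by
    have := continuous_evenPart
    fun_prop
  have hτψ : ∀ z, ∃ g, ψ g = τ z := fun z => (τ₁ (evenPart z)).2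
  -- lifts
  have hlift : ∀ s : ι, ∃ σ : Cantor → L, Continuous σ ∧ ∀ z, ∃ g, ψ g = τ z ∧ φ s g = σ z :=
    fun s => exists_lift ψ hψ (φ s) (hφ s) τ hτ hτψ
  choose σ hσ hσb using hlift
  choose b hb1 hb2 using hσb
  -- dense sequences
  choose a ha hadense using fun s : ι => exists_dense_seq (φ s) (ker φ C)
  -- decoding of tasks
  obtain ⟨dec, hdec⟩ := exists_decode hS₁inj (exists_injective_cantor L)
  -- patterns
  let St : Pat → Set ι := fun t => {s | s ∈ S₁ ∧ ∀ ν : (Fin t.1 → Bool) → Cantor,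
    (∀ c, res t.1 (ν c) = c) → ev (fun c => σ s (ν c) * φ s (a s (t.2.2 c))) t.2.1 ≠ 1}
  have : Nonempty Pat := ⟨⟨0, [], fun _ => 0⟩⟩
  obtain ⟨Θ, hΘ⟩ := exists_refinement St
  let S₀ : Set ι := ⋃ t : {t : Pat // (St t).Countable}, St t.1
  have hS₀ : S₀.Countable := countable_iUnion fun t => t.2
  let S₂ : Set ι := S₁ \ S₀
  have hS₂ : ¬ S₂.Countable := by
    intro h
    apply hS₁
    refine (h.union hS₀).mono fun s hs => ?_
    by_cases h' : s ∈ S₀
    · exact Or.inr h'
    · exact Or.inl ⟨hs, h'⟩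
  let R : Cantor → ι → L := fun z s => σ s z * φ s (a s ((Θ s).val z))
  have hR : ∀ s, Continuous fun z => R z s := by
    intro s
    exact (hσ s).mul (continuous_comp_res _ fun c => φ s (a s ((Θ s).2.2 c)))
  -- generators
  have hgen : ∀ z : Cantor, ∃ (x : G) (J : Set ι), J.Countable ∧ ψ x = τ z ∧
      (∀ s ∈ S₁, s ∉ J → φ s x = R z s) ∧
      ((∃ g, ψ g = τ z ∧ ∀ n, φ (dec (oddPart z) n).1.1 g = (dec (oddPart z) n).2) →
        ∀ n, φ (dec (oddPart z) n).1.1 x = (dec (oddPart z) n).2) := by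
    intro z
    have key : ∀ (g : G) (J : Set ι), ψ g = τ z → ∃ x, ψ x = τ z ∧
        (∀ s ∈ S₁, s ∉ J → φ s x = R z s) ∧ ∀ s ∈ S₁, s ∈ J → φ s x = φ s g := by
      intro g J hg
      obtain ⟨h, hh, hh'⟩ := hind.indep hφ
        (fun s => if s ∈ J then 1 else g⁻¹ * b s z * a s ((Θ s).val z)) (by
          intro s
          beta_reduce
          by_cases hs : s ∈ J
          · rw [if_pos hs]
            exact one_mem _
          · rw [if_neg hs]
            refine mul_mem ?_ (ha s _)
            rw [hψker, map_mul, map_inv, hg, hb1, inv_mul_cancel])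
      refine ⟨g * h, ?_, ?_, ?_⟩
      · rw [map_mul, (hψker h).1 hh, mul_one, hg]
      · intro s hs hsJ
        rw [map_mul, hh' s hs, if_neg hsJ]
        simp only [map_mul, map_inv, hb2, R]
        group
      · intro s hs hsJ
        rw [map_mul, hh' s hs, if_pos hsJ, map_one, mul_one]
    by_cases hex : ∃ g, ψ g = τ z ∧ ∀ n, φ (dec (oddPart z) n).1.1 g = (dec (oddPart z) n).2
    · obtain ⟨g, hg, hg'⟩ := hex
      obtain ⟨x, hx1, hx2, hx3⟩ := key g (range fun n => (dec (oddPart z) n).1.1) hg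
      refine ⟨x, _, countable_range _, hx1, hx2, fun _ n => ?_⟩
      rw [hx3 _ (dec (oddPart z) n).1.2 ⟨n, rfl⟩, hg']
    · obtain ⟨g, hg⟩ := hτψ z
      obtain ⟨x, hx1, hx2, -⟩ := key g ∅ hg
      exact ⟨x, ∅, countable_empty, hx1, hx2, fun h => absurd h hex⟩
  choose x J hJ hx1 hx2 hx3 using hgen
  have hxσ : ∀ s z, ∃ m ∈ (φ s '' (ker φ C : Set G)), φ s (x z) = σ s z * m := by
    intro s z
    refine ⟨φ s ((b s z)⁻¹ * x z), ⟨_, ?_, rfl⟩, ?_⟩
    · rw [SetLike.mem_coe, hψker, map_mul, map_inv, hb1, hx1, inv_mul_cancel]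
    · rw [map_mul, map_inv, hb2, mul_inv_cancel_left]
  refine ⟨{
    S := S₂
    x := x
    R := R
    hR := fun s _ => hR s
    hx := ?_
    hfree := ?_
    hdense := ?_
    hnontriv := ?_ }⟩
  · intro z
    refine (hJ z).mono ?_
    rintro s ⟨hs, hs'⟩
    by_contra hsJ
    exact hs' (hx2 z s hs.1 hsJ)
  · intro w hw s₀ hs₀
    by_contra hne
    obtain ⟨i, hi⟩ := exists_dense_choice (hadense s₀) (fun z => hxσ s₀ z) hne
    obtain ⟨n, r, hr1, hr2, hr3⟩ := exists_level (hσ s₀) (fun n => φ s₀ (a s₀ n)) w i hi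
    let t : Pat := ⟨n, w.map (Prod.map (res n) id), fun c => i (r c)⟩
    have hs₀t : s₀ ∈ St t := ⟨hs₀.1, hr3⟩
    have hStu : ¬ (St t).Countable := by
      intro hc
      exact hs₀.2 (mem_iUnion.2 ⟨⟨t, hc⟩, hs₀t⟩)
    have h1 := hΘ t hStu
    apply h1
    refine (hw.union hS₀).mono ?_
    rintro s ⟨hs, hst⟩
    by_cases hsS₀ : s ∈ S₀
    · exact Or.inr hsS₀
    left
    refine ⟨⟨hs.1, hsS₀⟩, ?_⟩
    have h2 := hs.2 r hr2
    change ev (fun c => σ s (r c) * φ s (a s (i (r c)))) (w.map (Prod.map (res n) id)) ≠ 1 at h2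
    rw [ev_map] at h2
    intro h3
    apply h2
    rw [← h3]
    apply ev_congr
    intro p hp
    simp only [R, hst]
    rw [hr1 p hp]
    simp only [Pat.val, t]
    rw [hr1 p hp]
  · intro g J' hJ' hJ'c
    obtain ⟨s₁⟩ := ‹Nonempty S₁›
    have hc : (insert s₁.1 J').Countable := hJ'c.insert _
    obtain ⟨f, hf⟩ := hc.exists_eq_range (insert_nonempty _ _)
    have hfS : ∀ n, f n ∈ S₁ := by
      intro n
      have : f n ∈ insert s₁.1 J' := by rw [hf]; exact ⟨n, rfl⟩
      rcases this with h | h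
      · rw [h]; exact s₁.2
      · exact (hJ' h).1
    obtain ⟨c, hc⟩ := hdec fun n => (⟨f n, hfS n⟩, φ (f n) g)
    obtain ⟨e, he⟩ := hτ₁s ⟨ψ g, g, rfl⟩
    obtain ⟨z, hz1, hz2⟩ := exists_merge e c
    refine ⟨z, fun s hs => ?_⟩
    have hs' : s ∈ range f := by rw [← hf]; exact Or.inr hs
    obtain ⟨n, rfl⟩ := hs'
    have hex : ∃ g, ψ g = τ z ∧ ∀ n, φ (dec (oddPart z) n).1.1 g = (dec (oddPart z) n).2 := by
      refine ⟨g, ?_, ?_⟩
      · show ψ g = (τ₁ (evenPart z)).1
        rw [hz1, he]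
      · intro n
        rw [hz2, hc]
    have := hx3 z hex n
    rw [hz2, hc] at this
    exact this
  · intro J' hJ' hJ'c
    have h1 : (S₂ \ J').Nonempty := by
      rw [nonempty_iff_ne_empty]
      intro h
      apply hS₂
      exact hJ'c.mono (diff_eq_empty.1 h)
    obtain ⟨s, hs, hsJ⟩ := h1
    obtain ⟨g₀, hg₀, hg₀'⟩ := hind.1 s hs.1
    obtain ⟨g, hg, hg'⟩ := hind.indep hφ (fun s' => if s' = s then g₀ else 1) (by
      intro s'
      beta_reduce
      by_cases h : s' = s
      · rw [if_pos h]; exact hg₀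
      · rw [if_neg h]; exact one_mem _)
    refine ⟨g, fun s' hs' => ?_, s, hs, ?_⟩
    · have hne : s' ≠ s := fun h => hsJ (h ▸ hs')
      rw [hg' s' (hJ' hs').1, if_neg hne, map_one]
    · rw [hg' s hs.1, if_pos rfl]
      exact hg₀'

end Pool.Agent.MP820cde
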