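import Mathlib

/-!
# Descending chain condition for images of closed subgroups in matrix groups
-/

open Topology Set Filter MeasureTheory

universe u

namespace Pool.Agent.MP820cde

section

variable {G : Type u} [Group G] {n : ℕ}

/-- Evaluation of a polynomial in the matrix entries. -/
noncomputable def pe (φ : G →* (Matrix (Fin n) (Fin n) ℝ)ˣ) (P : MvPolynomial (Fin n × Fin n) ℝ)
    (g : G) : ℝ :=
  MvPolynomial.eval (fun p => (φ g).val p.1 p.2) P

lemma pe_mul_decomp [TopologicalSpace G] (φ : G →* (Matrix (Fin n) (Fin n) ℝ)ˣ)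
    (hφ : Continuous φ) (P : MvPolynomial (Fin n × Fin n) ℝ) :
    ∃ (κ : Type) (_ : Fintype κ) (c : κ → C(G, ℝ)) (v : κ → MvPolynomial (Fin n × Fin n) ℝ),
      ∀ g h, pe φ P (g * h) = ∑ j, c j h * pe φ (v j) g := by
  induction P using MvPolynomial.induction_on with
  | C a =>
    refine ⟨Unit, inferInstance, fun _ => ContinuousMap.const _ a, fun _ => 1, fun g h => ?_⟩
    simp [pe]
  | add p q hp hq =>
    obtain ⟨κ, _, c, v, hv⟩ := hp
    obtain ⟨κ', _, c', v', hv'⟩ := hq
    refine ⟨κ ⊕ κ', inferInstance, Sum.elim c c', Sum.elim v v', fun g h => ?_⟩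
    have h1 : pe φ (p + q) (g * h) = pe φ p (g * h) + pe φ q (g * h) := by simp [pe]
    rw [h1, hv, hv']
    simp [Fintype.sum_sum_type]
  | mul_X p ij hp =>
    obtain ⟨κ, _, c, v, hv⟩ := hp
    have hcont : ∀ k : Fin n, Continuous fun h : G => (φ h).val k ij.2 := by
      intro k
      have h1 : Continuous fun h : G => (φ h).val := Units.continuous_val.comp hφ
      exact (continuous_apply ij.2).comp ((continuous_apply k).comp h1)
    refine ⟨κ × Fin n, inferInstance, fun jk => c jk.1 * ⟨_, hcont jk.2⟩,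
      fun jk => v jk.1 * MvPolynomial.X (ij.1, jk.2), fun g h => ?_⟩
    have h1 : pe φ (p * MvPolynomial.X ij) (g * h) =
        pe φ p (g * h) * ∑ k, (φ g).val ij.1 k * (φ h).val k ij.2 := by
      simp [pe, Matrix.mul_apply]
    rw [h1, hv, Finset.sum_mul_sum, Fintype.sum_prod_type]
    refine Finset.sum_congr rfl fun j _ => Finset.sum_congr rfl fun k _ => ?_
    have h2 : pe φ (v j * MvPolynomial.X (ij.1, k)) g = pe φ (v j) g * (φ g).val ij.1 k := by
      simp [pe]
    simp only [h2, ContinuousMap.mul_apply, ContinuousMap.coe_mk]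
    ring

lemma continuous_pe [TopologicalSpace G] (φ : G →* (Matrix (Fin n) (Fin n) ℝ)ˣ)
    (hφ : Continuous φ) (P : MvPolynomial (Fin n × Fin n) ℝ) : Continuous (pe φ P) := by
  unfold pe
  have h1 : Continuous fun g => (fun p : Fin n × Fin n => (φ g).val p.1 p.2) := by
    have h1 : Continuous fun h : G => (φ h).val := Units.continuous_val.comp hφ
    exact continuous_pi fun p => (continuous_apply p.2).comp ((continuous_apply p.1).comp h1)
  exact (MvPolynomial.continuous_eval P).comp h1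

/-- Averaging over a compact subgroup. -/
lemma exists_average [TopologicalSpace G] [IsTopologicalGroup G] [CompactSpace G]
    [T2Space G] (φ : G →* (Matrix (Fin n) (Fin n) ℝ)ˣ)
    (hφ : Continuous φ) (N : Subgroup G) (hN : IsClosed (N : Set G))
    (P : MvPolynomial (Fin n × Fin n) ℝ) :
    ∃ Q : MvPolynomial (Fin n × Fin n) ℝ, (∀ g ∈ N, pe φ Q g = pe φ Q 1) ∧
      ∀ (g : G) (a b : ℝ), (∀ h ∈ N, pe φ P (g * h) ∈ Icc a b) → pe φ Q g ∈ Icc a b := by
  have : CompactSpace N := isCompact_iff_compactSpace.1 hN.isCompact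
  let : MeasurableSpace N := borel N
  have : BorelSpace N := ⟨rfl⟩
  let μ : Measure N := Measure.haarMeasure ⊤
  have hμ1 : μ univ = 1 := by
    have := Measure.haarMeasure_self (K₀ := (⊤ : TopologicalSpace.PositiveCompacts N))
    simpa using this
  have : IsProbabilityMeasure μ := ⟨hμ1⟩
  obtain ⟨κ, _, c, v, hv⟩ := pe_mul_decomp φ hφ P
  have hint : ∀ f : C(N, ℝ), Integrable f μ := fun f =>
    f.continuous.integrable_of_hasCompactSupport (HasCompactSupport.of_compactSpace _)
  let Q : MvPolynomial (Fin n × Fin n) ℝ := ∑ j, MvPolynomial.C (∫ h : N, c j h.1 ∂μ) * v j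
  have hcj : ∀ j, Integrable (fun h : N => c j h.1) μ := fun j =>
    hint ⟨fun h : N => c j h.1, (c j).continuous.comp continuous_subtype_val⟩
  have hQ : ∀ g, pe φ Q g = ∫ h : N, pe φ P (g * h.1) ∂μ := by
    intro g
    simp_rw [hv]
    rw [integral_finsetSum _ fun j _ => (hcj j).mul_const _]
    simp_rw [integral_mul_const]
    simp [pe, Q]
  refine ⟨Q, ?_, ?_⟩
  · intro g hg
    rw [hQ, hQ]
    have h1 := integral_mul_left_eq_self (μ := μ) (fun h : N => pe φ P h.1) ⟨g, hg⟩
    simp only [one_mul]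
    exact h1
  · intro g a b hab
    rw [hQ]
    have h1 : Integrable (fun h : N => pe φ P (g * h.1)) μ :=
      hint ⟨fun h : N => pe φ P (g * h.1), (continuous_pe φ hφ P).comp (by fun_prop)⟩
    constructor
    · have := integral_mono (integrable_const a) h1 (fun h => (hab h.1 h.2).1)
      simpa using this
    · have := integral_mono h1 (integrable_const b) (fun h => (hab h.1 h.2).2)
      simpa using this

/-- Polynomials separate cosets. -/
lemma exists_separating [TopologicalSpace G] [IsTopologicalGroup G] [CompactSpace G]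
    (φ : G →* (Matrix (Fin n) (Fin n) ℝ)ˣ)
    (hφ : Continuous φ) (N : Subgroup G) (hN : IsClosed (N : Set G)) (x : G)
    (hx : φ x ∉ N.map φ) :
    ∃ P : MvPolynomial (Fin n × Fin n) ℝ, (∀ h ∈ N, pe φ P h ∈ Icc (-(1/4)) (1/4)) ∧
      ∀ h ∈ N, pe φ P (x * h) ∈ Icc (3/4) (5/4) := by
  let X : Set (Matrix (Fin n) (Fin n) ℝ)ˣ := range φ
  have : CompactSpace X := isCompact_iff_compactSpace.1 (isCompact_range hφ)
  have hπ : Continuous (fun g => (⟨φ g, g, rfl⟩ : X)) := by fun_prop
  let A₀ : Set X := (fun g => (⟨φ g, g, rfl⟩ : X)) '' N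
  let B₀ : Set X := (fun g => (⟨φ (x * g), x * g, rfl⟩ : X)) '' N
  have hA₀ : IsClosed A₀ := (hN.isCompact.image hπ).isClosed
  have hB₀ : IsClosed B₀ := (hN.isCompact.image (hπ.comp (continuous_const_mul x))).isClosed
  have hd : Disjoint A₀ B₀ := by
    rw [Set.disjoint_left]
    rintro _ ⟨g, hg, rfl⟩ ⟨h, hh, he⟩
    apply hx
    have h1 : φ (x * h) = φ g := congrArg Subtype.val he
    refine ⟨g * h⁻¹, mul_mem hg (inv_mem hh), ?_⟩
    rw [map_mul, ← h1, ← map_mul]
    simp
  obtain ⟨u, hu0, hu1, -⟩ := exists_continuous_zero_one_of_isClosed hA₀ hB₀ hd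
  let e : Fin n × Fin n → C(X, ℝ) := fun p => ⟨fun x => x.1.val p.1 p.2, by
    have h1 : Continuous fun x : X => x.1.val := Units.continuous_val.comp continuous_subtype_val
    exact (continuous_apply p.2).comp ((continuous_apply p.1).comp h1)⟩
  let A : Subalgebra ℝ C(X, ℝ) := (MvPolynomial.aeval e).range
  have hA : A.SeparatesPoints := by
    intro y z hyz
    have h1 : ∃ i j, y.1.val i j ≠ z.1.val i j := by
      by_contra h
      push Not at h
      apply hyz
      apply Subtype.ext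
      apply Units.ext
      ext i j
      exact h i j
    obtain ⟨i, j, hij⟩ := h1
    refine ⟨_, ⟨e (i, j), ⟨MvPolynomial.X (i, j), by simp⟩, rfl⟩, hij⟩
  have hPe : ∀ (P : MvPolynomial (Fin n × Fin n) ℝ) (g : G),
      (MvPolynomial.aeval e P) (⟨φ g, g, rfl⟩ : X) = pe φ P g := by
    intro P g
    unfold pe
    induction P using MvPolynomial.induction_on with
    | C a => simp
    | add p q hp hq =>
      rw [map_add, map_add, ContinuousMap.add_apply, hp, hq]
    | mul_X p ij hp =>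
      rw [map_mul, map_mul, ContinuousMap.mul_apply, hp, MvPolynomial.aeval_X,
        MvPolynomial.eval_X]
      rfl
  obtain ⟨⟨f, ⟨P, rfl⟩⟩, hf⟩ :=
    ContinuousMap.exists_mem_subalgebra_near_continuousMap_of_separatesPoints A hA u (1 / 4)
      (by norm_num)
  have hclose : ∀ y : X, |(MvPolynomial.aeval e P) y - u y| < 1 / 4 := by
    intro y
    have := (ContinuousMap.norm_lt_iff _ (by norm_num)).1 hf y
    simpa using this
  refine ⟨P, ?_, ?_⟩
  · intro h hh
    have h1 := hclose ⟨φ h, h, rfl⟩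
    rw [hPe, hu0 ⟨h, hh, rfl⟩] at h1
    simp only [Pi.zero_apply, sub_zero] at h1
    rw [abs_lt] at h1
    exact ⟨h1.1.le, h1.2.le⟩
  · intro h hh
    have h1 := hclose ⟨φ (x * h), x * h, rfl⟩
    rw [hPe, hu1 ⟨h, hh, rfl⟩] at h1
    simp only [Pi.one_apply] at h1
    rw [abs_lt] at h1
    constructor <;> linarith [h1.1, h1.2]

/-- The ideal of polynomials vanishing on a subgroup. -/
noncomputable def vanIdeal (φ : G →* (Matrix (Fin n) (Fin n) ℝ)ˣ) (N : Subgroup G) :
    Ideal (MvPolynomial (Fin n × Fin n) ℝ) where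
  carrier := {P | ∀ g ∈ N, pe φ P g = 0}
  add_mem' := by
    intro P Q hP hQ g hg
    have h1 : pe φ (P + Q) g = pe φ P g + pe φ Q g := by simp [pe]
    rw [h1, hP g hg, hQ g hg, add_zero]
  zero_mem' := by
    intro g _
    simp [pe]
  smul_mem' := by
    intro c P hP g hg
    have h1 : pe φ (c • P) g = pe φ c g * pe φ P g := by simp [pe]
    rw [h1, hP g hg, mul_zero]

lemma mem_vanIdeal {φ : G →* (Matrix (Fin n) (Fin n) ℝ)ˣ} {N : Subgroup G}
    {P : MvPolynomial (Fin n × Fin n) ℝ} : P ∈ vanIdeal φ N ↔ ∀ g ∈ N, pe φ P g = 0 := Iff.rfl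

lemma map_eq_of_vanIdeal_eq [TopologicalSpace G] [IsTopologicalGroup G] [CompactSpace G]
    [T2Space G] (φ : G →* (Matrix (Fin n) (Fin n) ℝ)ˣ)
    (hφ : Continuous φ) {N N' : Subgroup G} (hNN' : N' ≤ N) (hN' : IsClosed (N' : Set G))
    (h : vanIdeal φ N' ≤ vanIdeal φ N) : N'.map φ = N.map φ := by
  refine le_antisymm (Subgroup.map_mono hNN') ?_
  rintro _ ⟨x, hx, rfl⟩
  by_contra hcon
  obtain ⟨P, hP1, hP2⟩ := exists_separating φ hφ N' hN' x hcon
  obtain ⟨Q, hQ1, hQ2⟩ := exists_average φ hφ N' hN' P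
  have h1 : pe φ Q 1 ∈ Icc (-(1/4) : ℝ) (1/4) := hQ2 1 _ _ (by simpa using hP1)
  have h2 : pe φ Q x ∈ Icc (3/4 : ℝ) (5/4) := hQ2 x _ _ hP2
  have h3 : Q - MvPolynomial.C (pe φ Q 1) ∈ vanIdeal φ N' := by
    intro g hg
    have h4 : pe φ (Q - MvPolynomial.C (pe φ Q 1)) g = pe φ Q g - pe φ Q 1 := by
      simp only [pe, map_sub, MvPolynomial.eval_C]
    rw [h4, hQ1 g hg, sub_self]
  have h5 := h h3 x hx
  have h4 : pe φ (Q - MvPolynomial.C (pe φ Q 1)) x = pe φ Q x - pe φ Q 1 := by
    simp only [pe, map_sub, MvPolynomial.eval_C]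
  rw [h4] at h5
  linarith [h1.2, h2.1]

/-- Descending chain condition. -/
theorem dcc_matrix [TopologicalSpace G] [IsTopologicalGroup G] [CompactSpace G]
    [T2Space G] (φ : G →* (Matrix (Fin n) (Fin n) ℝ)ˣ)
    (hφ : Continuous φ) (N : ℕ → Subgroup G) (hN : Antitone N)
    (hNc : ∀ k, IsClosed (N k : Set G)) :
    ∃ k₀, ∀ k ≥ k₀, (N k).map φ = (N k₀).map φ := by
  let I : ℕ →o Ideal (MvPolynomial (Fin n × Fin n) ℝ) :=
    ⟨fun k => vanIdeal φ (N k), fun k l hkl P hP g hg => hP g (hN hkl hg)⟩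
  obtain ⟨k₀, hk₀⟩ := monotone_stabilizes_iff_noetherian.2
    (inferInstance : IsNoetherian (MvPolynomial (Fin n × Fin n) ℝ)
      (MvPolynomial (Fin n × Fin n) ℝ)) I
  refine ⟨k₀, fun k hk => map_eq_of_vanIdeal_eq φ hφ (hN hk) (hNc k) ?_⟩
  exact (hk₀ k hk).symm.le

end

end Pool.Agent.MP820cde
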