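import Mathlib

/-!
# Definitions used in the statement
-/

open Topology Set Filter Cardinal

universe u

namespace Pool.Agent.MP820cde

/-- The weight of a space: the least cardinality of a base. -/
noncomputable def weight (X : Type u) [TopologicalSpace X] : Cardinal.{u} :=
  sInf {κ : Cardinal.{u} | ∃ B : Set (Set X), TopologicalSpace.IsTopologicalBasis B ∧ #B = κ}

/-- A space is `w`-compact if some compact subset has the same weight as the space. -/
def WCompact (X : Type u) [TopologicalSpace X] : Prop :=
  ∃ C : Set X, IsCompact C ∧ weight C = weight X

/-- A topological group is projectively `w`-compact if every Hausdorff topological group onto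
which it admits a continuous surjective homomorphism is `w`-compact. -/
def ProjectivelyWCompact (D : Type u) [Group D] [TopologicalSpace D] : Prop :=
  ∀ (H : Type u) [Group H] [TopologicalSpace H] [IsTopologicalGroup H] [T2Space H] (f : D →* H),
    Continuous f → Function.Surjective f → WCompact H

/-- A subgroup is `G_δ`-dense if it meets every nonempty `G_δ`-set. -/
def GDeltaDense {G : Type u} [Group G] [TopologicalSpace G] (D : Subgroup G) : Prop :=
  ∀ B : Set G, IsGδ B → B.Nonempty → ((D : Set G) ∩ B).Nonempty

end Pool.Agent.MP820cde
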