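import Mathlib
import Pool.Agent.MP_820cde_gt.Defs
import Pool.Agent.MP_820cde_gt.Build

/-!
# From the data to the failure of projective `w`-compactness
-/

open Topology Set Filter Cardinal

universe u v w

namespace Pool.Agent.MP820cde

lemma weight_le_aleph0_of_secondCountable (X : Type u) [TopologicalSpace X]
    [SecondCountableTopology X] : weight X ≤ ℵ₀ := by
  have h1 : weight X ≤ #(TopologicalSpace.countableBasis X) :=
    csInf_le' ⟨_, TopologicalSpace.isBasis_countableBasis X, rfl⟩
  exact h1.trans (Cardinal.le_aleph0_iff_set_countable.2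
    (TopologicalSpace.countable_countableBasis X))

lemma secondCountable_of_weight_le_aleph0 (X : Type u) [TopologicalSpace X]
    (h : weight X ≤ ℵ₀) : SecondCountableTopology X := by
  have hne : {κ : Cardinal.{u} | ∃ B : Set (Set X), TopologicalSpace.IsTopologicalBasis B ∧
      #B = κ}.Nonempty := ⟨_, _, TopologicalSpace.isTopologicalBasis_opens, rfl⟩
  obtain ⟨B, hB, hB'⟩ := csInf_mem hne
  have h2 : B.Countable := by
    rw [← Cardinal.le_aleph0_iff_set_countable, hB']
    exact h
  exact hB.secondCountableTopology h2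

/-- The group `H` of the data is not `w`-compact. -/
theorem Data.not_wCompact {G : Type v} {L : Type} {ι : Type u} [Group G] [Group L]
    [TopologicalSpace L] [IsTopologicalGroup L] [T2Space L] [SecondCountableTopology L]
    {φ : ι → G →* L} (d : Data φ) : ¬ WCompact d.H := by
  rintro ⟨C, hC, hw⟩
  apply d.not_secondCountable
  apply secondCountable_of_weight_le_aleph0
  rw [← hw]
  -- the image of `C` in the product
  let C' : Set (d.S → L) := Subtype.val '' C
  have hC' : IsCompact C' := hC.image continuous_subtype_val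
  have hC'H : C' ⊆ d.H := by
    rintro _ ⟨x, -, rfl⟩
    exact x.2
  obtain ⟨J, hJ, hinj⟩ := d.exists_countable_injOn hC' hC'H
  have : Countable J := hJ.to_subtype
  have : CompactSpace C := isCompact_iff_compactSpace.1 hC
  let f : C → (J → L) := fun x s => x.1.1 s.1
  have hf : Continuous f := continuous_pi fun s =>
    (continuous_apply s.1).comp (continuous_subtype_val.comp continuous_subtype_val)
  have hf' : Function.Injective f := by
    intro x y hxy
    apply Subtype.ext
    apply Subtype.ext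
    apply hinj _ ⟨x.1, x.2, rfl⟩ _ ⟨y.1, y.2, rfl⟩
    intro s hs
    exact congrFun hxy ⟨s, hs⟩
  have hemb := (hf.isClosedEmbedding hf').isEmbedding
  have : SecondCountableTopology C := hemb.secondCountableTopology
  exact weight_le_aleph0_of_secondCountable C

/-- The preimage of `H` is `G_δ`-dense. -/
theorem Data.gDeltaDense {G : Type u} {L : Type v} {ι : Type w} [Group G] [TopologicalSpace G]
    [IsTopologicalGroup G] [CompactSpace G] [T2Space G] [Group L]
    [TopologicalSpace L] [IsTopologicalGroup L] [T2Space L]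
    {φ : ι → G →* L} (hφ : ∀ i, Continuous (φ i)) (d : Data φ) :
    GDeltaDense (d.H.comap d.Φ) := by
  intro B hB hBne
  obtain ⟨g, hg⟩ := hBne
  obtain ⟨O, hO, hBO⟩ := hB.eq_iInter_nat
  have hΦ : Continuous d.Φ := continuous_pi fun s => hφ s.1
  have hgO : ∀ n, g ∈ O n := fun n => by
    rw [hBO] at hg
    exact mem_iInter.1 hg n
  -- closed neighbourhoods
  have h1 : ∀ n, ∃ K ∈ 𝓝 g, IsClosed K ∧ K ⊆ O n := fun n => by
    obtain ⟨K, hK1, hK2, hK3⟩ := exists_mem_nhds_isClosed_subset ((hO n).mem_nhds (hgO n))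
    exact ⟨K, hK1, hK2, hK3⟩
  choose K hK1 hK2 hK3 using h1
  let V : ℕ → Set G := fun n => ⋂ m ≤ n, K m
  have hV1 : ∀ n, V n ∈ 𝓝 g := fun n => by
    refine (biInter_mem (finite_le_nat n)).2 fun m _ => hK1 m
  have hV2 : ∀ n, IsClosed (V n) := fun n => isClosed_biInter fun m _ => hK2 m
  have hV3 : ∀ n, V n ⊆ O n := fun n =>
    (biInter_subset_of_mem (show n ∈ {m | m ≤ n} from le_refl n)).trans (hK3 n)
  have hVanti : ∀ n, V (n + 1) ⊆ V n := fun n =>
    biInter_subset_biInter_left fun m hm => Nat.le_succ_of_le hm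
  -- the map onto the range is open
  have : CompactSpace d.Φ.range := isCompact_iff_compactSpace.1
    (by simpa using (isCompact_range hΦ))
  have hopen : IsOpenMap d.Φ.rangeRestrict :=
    MonoidHom.isOpenMap_of_sigmaCompact _ d.Φ.rangeRestrict_surjective
      (by exact Continuous.subtype_mk hΦ _)
  have h2 : ∀ n, ∃ I : Set d.S, I.Finite ∧ ∀ h : d.Φ.range,
      (∀ s ∈ I, h.1 s = d.Φ g s) → ∃ v ∈ V n, d.Φ v = h.1 := by
    intro n
    have h3 : d.Φ.rangeRestrict '' V n ∈ 𝓝 (d.Φ.rangeRestrict g) :=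
      hopen.image_mem_nhds (hV1 n)
    rw [nhds_subtype_eq_comap, mem_comap] at h3
    obtain ⟨W, hW, hWV⟩ := h3
    rw [nhds_pi, Filter.mem_pi] at hW
    obtain ⟨I, hI, t, ht, htW⟩ := hW
    refine ⟨I, hI, fun h hh => ?_⟩
    have h4 : h ∈ d.Φ.rangeRestrict '' V n := by
      apply hWV
      apply htW
      intro s hs
      rw [hh s hs]
      exact mem_of_mem_nhds (ht s)
    obtain ⟨v, hv, rfl⟩ := h4
    exact ⟨v, hv, rfl⟩
  choose I hI hIV using h2
  obtain ⟨h, hh, hh'⟩ := d.exists_mem_H g (countable_iUnion fun n => (hI n).countable)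
  have h5 : ∀ n, ∃ v ∈ V n, d.Φ v = h := by
    intro n
    refine hIV n ⟨h, d.H_le_range hh⟩ fun s hs => ?_
    exact hh' s (mem_iUnion.2 ⟨n, hs⟩)
  have h6 : (⋂ n, (V n ∩ d.Φ ⁻¹' {h})).Nonempty := by
    apply IsCompact.nonempty_iInter_of_sequence_nonempty_isCompact_isClosed
    · intro n
      exact inter_subset_inter_left _ (hVanti n)
    · intro n
      obtain ⟨v, hv, hv'⟩ := h5 n
      exact ⟨v, hv, hv'⟩
    · exact ((hV2 0).inter (isClosed_singleton.preimage hΦ)).isCompact
    · intro n
      exact (hV2 n).inter (isClosed_singleton.preimage hΦ)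
  obtain ⟨v, hv⟩ := h6
  rw [mem_iInter] at hv
  refine ⟨v, ?_, ?_⟩
  · show d.Φ v ∈ d.H
    rw [(hv 0).2]
    exact hh
  · rw [hBO, mem_iInter]
    exact fun n => hV3 n (hv n).1

/-- Conclusion from the data. -/
theorem Data.exists_bad {G : Type u} {L : Type} {ι : Type u} [Group G] [TopologicalSpace G]
    [IsTopologicalGroup G] [CompactSpace G] [T2Space G] [Group L]
    [TopologicalSpace L] [IsTopologicalGroup L] [T2Space L] [SecondCountableTopology L]
    {φ : ι → G →* L} (hφ : ∀ i, Continuous (φ i)) (d : Data φ) :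
    ∃ D : Subgroup G, GDeltaDense D ∧ ¬ ProjectivelyWCompact D := by
  refine ⟨d.H.comap d.Φ, d.gDeltaDense hφ, fun hP => ?_⟩
  have hΦ : Continuous d.Φ := continuous_pi fun s => hφ s.1
  let f : (d.H.comap d.Φ) →* d.H := d.Φ.subgroupComap d.H
  have hf : Continuous f := by
    apply Continuous.subtype_mk
    exact hΦ.comp continuous_subtype_val
  have hfs : Function.Surjective f := by
    rintro ⟨h, hh⟩
    obtain ⟨g, hg⟩ := d.H_le_range hh
    exact ⟨⟨g, by rw [Subgroup.mem_comap, hg]; exact hh⟩, Subtype.ext hg⟩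
  exact d.not_wCompact (hP d.H f hf hfs)

end Pool.Agent.MP820cde
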