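import Mathlib
import Pool.Agent.MP_820cde_gt.Defs
import Pool.Agent.MP_820cde_gt.Transfer
import Pool.Agent.MP_820cde_gt.DCC
import Pool.Agent.MP_820cde_gt.PW

/-!
# Compact groups all of whose `G_δ`-dense subgroups are projectively `w`-compact are metrizable
-/

open Topology Set Filter Cardinal

universe u

namespace Pool.Agent.MP820cde

/-- The target group of all matrix representations. -/
abbrev Target : Type := (n : ℕ) → (Matrix (Fin n) (Fin n) ℝ)ˣ

instance secondCountable_units (n : ℕ) :
    SecondCountableTopology (Matrix (Fin n) (Fin n) ℝ)ˣ := by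
  have h1 : SecondCountableTopology (Matrix (Fin n) (Fin n) ℝ) :=
    inferInstanceAs (SecondCountableTopology (Fin n → Fin n → ℝ))
  have h2 : SecondCountableTopology (Matrix (Fin n) (Fin n) ℝ)ᵐᵒᵖ :=
    MulOpposite.opHomeomorph.symm.isEmbedding.secondCountableTopology
  exact Units.isEmbedding_embedProduct.secondCountableTopology

/-- The index type of all continuous real matrix representations. -/
abbrev Reps (G : Type u) [Group G] [TopologicalSpace G] : Type u :=
  Σ n : ℕ, {φ : G →* (Matrix (Fin n) (Fin n) ℝ)ˣ // Continuous φ}

/-- The homomorphism to the target given by a representation. -/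
noncomputable def repHom {G : Type u} [Group G] [TopologicalSpace G] (i : Reps G) :
    G →* Target :=
  (MonoidHom.mulSingle (fun n : ℕ => (Matrix (Fin n) (Fin n) ℝ)ˣ) i.1).comp i.2.1

lemma continuous_repHom {G : Type u} [Group G] [TopologicalSpace G] (i : Reps G) :
    Continuous (repHom i) :=
  (continuous_mulSingle i.1).comp i.2.2

theorem metrizable_of_gDeltaDense (G : Type u) [Group G] [TopologicalSpace G]
    [IsTopologicalGroup G] [CompactSpace G] [T2Space G]
    (h : ∀ D : Subgroup G, GDeltaDense D → ProjectivelyWCompact D) :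
    TopologicalSpace.MetrizableSpace G := by
  by_contra hG
  have hsep : ∀ C : Set (Reps G), C.Countable →
      ∃ g ∈ ker (repHom (G := G)) C, ∃ i : Reps G, repHom i g ≠ 1 := by
    intro C hC
    by_contra hcon
    push Not at hcon
    apply hG
    have : Countable C := hC.to_subtype
    let ψ : G →* (C → Target) := MonoidHom.pi fun i : C => repHom i.1
    have hψ : Continuous ψ := continuous_pi fun i => continuous_repHom i.1
    have hinj : Function.Injective ψ := by
      rw [injective_iff_map_eq_one]
      intro g hg
      by_contra hg1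
      obtain ⟨n, φ, hφ, hφg⟩ := exists_rep hg1
      apply hφg
      have h1 : g ∈ ker (repHom (G := G)) C := by
        rw [mem_ker]
        intro i hi
        exact congrFun hg ⟨i, hi⟩
      have h2 := hcon g h1 ⟨n, φ, hφ⟩
      have h3 := congrFun h2 n
      simpa [repHom] using h3
    have hemb := (hψ.isClosedEmbedding hinj).isEmbedding
    have : TopologicalSpace.MetrizableSpace (C → Target) := inferInstance
    exact hemb.metrizableSpace
  have hdcc : ∀ i : Reps G, ∀ N : ℕ → Subgroup G, Antitone N →
      (∀ k, IsClosed (N k : Set G)) →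
      ∃ k₀, ∀ k ≥ k₀, (N k).map (repHom i) = (N k₀).map (repHom i) := by
    intro i N hN hNc
    obtain ⟨k₀, hk₀⟩ := dcc_matrix i.2.1 i.2.2 N hN hNc
    refine ⟨k₀, fun k hk => ?_⟩
    have := hk₀ k hk
    unfold repHom
    rw [← Subgroup.map_map, ← Subgroup.map_map, this]
  obtain ⟨C, hC, S, hS, hind⟩ := exists_uncountable_finIndep (repHom (G := G))
    continuous_repHom hdcc hsep
  obtain ⟨d⟩ := exists_data (repHom (G := G)) continuous_repHom hC hS hind
  obtain ⟨D, hD, hD'⟩ := d.exists_bad continuous_repHom
  exact hD' (h D hD)

end Pool.Agent.MP820cde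

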